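import Mathlib

/-!
# Additive energies and representation counts

`rr f₁ f₂ f₃ f₄ x` is the sum of `f₁ a * f₂ b * f₃ c * f₄ d` over `a + b - c - d = x`, and `En f` is the
additive energy of `f`. The inequality `|rr f₁ f₂ f₃ f₄ x| ^ 4 ≤ En f₁ * En f₂ * En f₃ * En f₄` is proved by three
applications of the inequality of Cauchy and Schwarz; `transfer` compares the counts for `f + g` and for `g` when the
energy of `f` is small.
-/

set_option autoImplicit false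

namespace Run7.h671.RS

open Finset

variable {G : Type*} [AddCommGroup G] [Fintype G] [DecidableEq G]

/-- The sum of `f₁ a * f₂ b * f₃ c * f₄ d` over `a + b - c - d = x`. -/
def rr (f₁ f₂ f₃ f₄ : G → ℝ) (x : G) : ℝ :=
  ∑ a, ∑ b, ∑ c, f₁ a * f₂ b * f₃ c * f₄ (a + b - c - x)

/-- The convolution. -/
def cv (f g : G → ℝ) (s : G) : ℝ := ∑ a, f a * g (s - a)

/-- The autocorrelation. -/
def ac (f : G → ℝ) (u : G) : ℝ := ∑ a, f a * f (a + u)

/-- The additive energy. -/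
def En (f : G → ℝ) : ℝ := ∑ u, (ac f u) ^ 2

omit [DecidableEq G] in
lemma En_nonneg (f : G → ℝ) : 0 ≤ En f := sum_nonneg fun _ _ => sq_nonneg _

omit [DecidableEq G] in
lemma rr_eq_cv (f₁ f₂ f₃ f₄ : G → ℝ) (x : G) :
    rr f₁ f₂ f₃ f₄ x = ∑ s, cv f₁ f₂ s * cv f₃ f₄ (s - x) := by
  unfold rr cv
  have h1 : ∀ s : G, (∑ a, f₁ a * f₂ (s - a)) * (∑ c, f₃ c * f₄ (s - x - c)) =
      ∑ a, ∑ c, f₁ a * f₂ (s - a) * (f₃ c * f₄ (s - x - c)) := by
    intro s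
    rw [sum_mul_sum]
  have h2 : ∑ s, (∑ a, f₁ a * f₂ (s - a)) * (∑ c, f₃ c * f₄ (s - x - c)) =
      ∑ a, ∑ s, ∑ c, f₁ a * f₂ (s - a) * (f₃ c * f₄ (s - x - c)) := by
    rw [sum_congr rfl fun s _ => h1 s, sum_comm]
  rw [h2]
  refine sum_congr rfl fun a _ => ?_
  rw [← Equiv.sum_comp (Equiv.addLeft a) (fun s => ∑ c, f₁ a * f₂ (s - a) * (f₃ c * f₄ (s - x - c)))]
  refine sum_congr rfl fun b _ => sum_congr rfl fun c _ => ?_
  simp only [Equiv.coe_addLeft, add_sub_cancel_left]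
  have : a + b - x - c = a + b - c - x := by abel
  rw [this]; ring

omit [DecidableEq G] in
lemma cv_sq (f g : G → ℝ) : ∑ s, (cv f g s) ^ 2 = ∑ u, ac f u * ac g u := by
  unfold cv ac
  have h1 : ∀ s : G, (∑ a, f a * g (s - a)) ^ 2 =
      ∑ a, ∑ u, f a * g (s - a) * (f (a + u) * g (s - (a + u))) := by
    intro s
    rw [sq, sum_mul_sum]
    refine sum_congr rfl fun a _ => ?_
    rw [← Equiv.sum_comp (Equiv.addLeft a)]
    rfl
  have h2 : ∀ u : G, (∑ a, f a * f (a + u)) * (∑ a, g a * g (a + u)) =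
      ∑ a, ∑ b, f a * f (a + u) * (g b * g (b + u)) := by
    intro u; rw [sum_mul_sum]
  rw [sum_congr rfl fun s _ => h1 s, sum_congr rfl fun u _ => h2 u, sum_comm]
  rw [sum_comm (s := univ (α := G)) (t := univ (α := G))
    (f := fun u a => ∑ b, f a * f (a + u) * (g b * g (b + u)))]
  refine sum_congr rfl fun a _ => ?_
  rw [sum_comm]
  refine sum_congr rfl fun u _ => ?_
  rw [← Equiv.sum_comp (Equiv.addLeft (a + u))]
  refine sum_congr rfl fun b _ => ?_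
  simp only [Equiv.coe_addLeft]
  have e1 : a + u + b - a = b + u := by abel
  have e2 : a + u + b - (a + u) = b := by abel
  rw [e1, e2]; ring

omit [DecidableEq G] in
lemma cv_norm (f g : G → ℝ) : (∑ s, (cv f g s) ^ 2) ^ 2 ≤ En f * En g := by
  rw [cv_sq]
  exact sum_mul_sq_le_sq_mul_sq _ _ _

omit [DecidableEq G] in
lemma rr_pow_le (f₁ f₂ f₃ f₄ : G → ℝ) (x : G) :
    (rr f₁ f₂ f₃ f₄ x) ^ 4 ≤ En f₁ * En f₂ * (En f₃ * En f₄) := by
  have h1 : (rr f₁ f₂ f₃ f₄ x) ^ 2 ≤ (∑ s, (cv f₁ f₂ s) ^ 2) * ∑ s, (cv f₃ f₄ s) ^ 2 := by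
    rw [rr_eq_cv]
    have h2 := sum_mul_sq_le_sq_mul_sq (univ : Finset G) (fun s => cv f₁ f₂ s) (fun s => cv f₃ f₄ (s - x))
    have h3 : ∑ s, (cv f₃ f₄ (s - x)) ^ 2 = ∑ s, (cv f₃ f₄ s) ^ 2 :=
      Equiv.sum_comp (Equiv.subRight x) fun s => (cv f₃ f₄ s) ^ 2
    rw [h3] at h2
    exact h2
  have h4 : 0 ≤ ∑ s, (cv f₁ f₂ s) ^ 2 := sum_nonneg fun _ _ => sq_nonneg _
  have h5 : 0 ≤ ∑ s, (cv f₃ f₄ s) ^ 2 := sum_nonneg fun _ _ => sq_nonneg _
  calc (rr f₁ f₂ f₃ f₄ x) ^ 4 = ((rr f₁ f₂ f₃ f₄ x) ^ 2) ^ 2 := by ring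
    _ ≤ ((∑ s, (cv f₁ f₂ s) ^ 2) * ∑ s, (cv f₃ f₄ s) ^ 2) ^ 2 :=
        pow_le_pow_left₀ (sq_nonneg _) h1 2
    _ = (∑ s, (cv f₁ f₂ s) ^ 2) ^ 2 * (∑ s, (cv f₃ f₄ s) ^ 2) ^ 2 := by ring
    _ ≤ En f₁ * En f₂ * (En f₃ * En f₄) :=
        mul_le_mul (cv_norm _ _) (cv_norm _ _) (sq_nonneg _) (mul_nonneg (En_nonneg _) (En_nonneg _))

/-- The fourth root of the energy. -/
noncomputable def N4 (f : G → ℝ) : ℝ := Real.sqrt (Real.sqrt (En f))

omit [DecidableEq G] in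
lemma N4_nonneg (f : G → ℝ) : 0 ≤ N4 f := Real.sqrt_nonneg _

omit [DecidableEq G] in
lemma N4_pow (f : G → ℝ) : N4 f ^ 4 = En f := by
  have h : N4 f ^ 4 = ((Real.sqrt (Real.sqrt (En f))) ^ 2) ^ 2 := by unfold N4; ring
  rw [h, Real.sq_sqrt (Real.sqrt_nonneg _), Real.sq_sqrt (En_nonneg f)]

omit [DecidableEq G] in
lemma rr_abs_le (f₁ f₂ f₃ f₄ : G → ℝ) (x : G) :
    |rr f₁ f₂ f₃ f₄ x| ≤ N4 f₁ * N4 f₂ * N4 f₃ * N4 f₄ := by
  have h0 : 0 ≤ N4 f₁ * N4 f₂ * N4 f₃ * N4 f₄ := by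
    have := N4_nonneg f₁; have := N4_nonneg f₂; have := N4_nonneg f₃; have := N4_nonneg f₄
    positivity
  have h1 : |rr f₁ f₂ f₃ f₄ x| ^ 4 ≤ (N4 f₁ * N4 f₂ * N4 f₃ * N4 f₄) ^ 4 := by
    have e : (N4 f₁ * N4 f₂ * N4 f₃ * N4 f₄) ^ 4 = N4 f₁ ^ 4 * N4 f₂ ^ 4 * (N4 f₃ ^ 4 * N4 f₄ ^ 4) := by ring
    rw [e, N4_pow, N4_pow, N4_pow, N4_pow]
    have e2 : |rr f₁ f₂ f₃ f₄ x| ^ 4 = (rr f₁ f₂ f₃ f₄ x) ^ 4 := by
      rw [show (4 : ℕ) = 2 * 2 by norm_num, pow_mul, pow_mul, sq_abs]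
    rw [e2]
    exact rr_pow_le f₁ f₂ f₃ f₄ x
  exact (pow_le_pow_iff_left₀ (abs_nonneg _) h0 (by norm_num)).1 h1

omit [DecidableEq G] in
lemma rr_zero (f : G → ℝ) : rr f f f f 0 = En f := by
  rw [rr_eq_cv]
  have : ∑ s, cv f f s * cv f f (s - 0) = ∑ s, (cv f f s) ^ 2 := by
    refine sum_congr rfl fun s _ => ?_
    rw [sub_zero, sq]
  rw [this, cv_sq]
  unfold En
  exact sum_congr rfl fun u _ => (sq _).symm

omit [DecidableEq G] in
lemma rr_tele (f g A : G → ℝ) (hA : ∀ x, A x = f x + g x) (x : G) :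
    rr A A A A x = rr g g g g x + (rr f A A A x + rr g f A A x + rr g g f A x + rr g g g f x) := by
  unfold rr
  rw [← sum_add_distrib, ← sum_add_distrib, ← sum_add_distrib, ← sum_add_distrib]
  refine sum_congr rfl fun a _ => ?_
  rw [← sum_add_distrib, ← sum_add_distrib, ← sum_add_distrib, ← sum_add_distrib]
  refine sum_congr rfl fun b _ => ?_
  rw [← sum_add_distrib, ← sum_add_distrib, ← sum_add_distrib, ← sum_add_distrib]
  refine sum_congr rfl fun c _ => ?_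
  simp only [hA]
  ring

omit [DecidableEq G] in
lemma tele_bound (f g A : G → ℝ) (hA : ∀ x, A x = f x + g x) (x : G) :
    |rr A A A A x - rr g g g g x| ≤ N4 f * (N4 A ^ 3 + N4 g * N4 A ^ 2 + N4 g ^ 2 * N4 A + N4 g ^ 3) := by
  rw [rr_tele f g A hA x]
  have e : rr g g g g x + (rr f A A A x + rr g f A A x + rr g g f A x + rr g g g f x) - rr g g g g x =
      rr f A A A x + rr g f A A x + rr g g f A x + rr g g g f x := by ring
  rw [e]
  have h1 := rr_abs_le f A A A x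
  have h2 := rr_abs_le g f A A x
  have h3 := rr_abs_le g g f A x
  have h4 := rr_abs_le g g g f x
  calc |rr f A A A x + rr g f A A x + rr g g f A x + rr g g g f x|
      ≤ |rr f A A A x| + |rr g f A A x| + |rr g g f A x| + |rr g g g f x| := by
        refine (abs_add_le _ _).trans ?_
        gcongr
        refine (abs_add_le _ _).trans ?_
        gcongr
        exact abs_add_le _ _
    _ ≤ N4 f * N4 A * N4 A * N4 A + N4 g * N4 f * N4 A * N4 A + N4 g * N4 g * N4 f * N4 A +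
        N4 g * N4 g * N4 g * N4 f := by linarith
    _ = _ := by ring

omit [DecidableEq G] in
lemma N4_add_le (f g A : G → ℝ) (hA : ∀ x, A x = f x + g x) : N4 A ≤ N4 f + N4 g := by
  have hf := N4_nonneg f
  have hg := N4_nonneg g
  have hAn := N4_nonneg A
  by_contra hlt
  push Not at hlt
  have h1 := tele_bound f g A hA 0
  rw [rr_zero, rr_zero, ← N4_pow A, ← N4_pow g] at h1
  have h2 := (le_abs_self _).trans h1
  have h3 : N4 A ^ 4 - N4 g ^ 4 = (N4 A - N4 g) *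
      (N4 A ^ 3 + N4 g * N4 A ^ 2 + N4 g ^ 2 * N4 A + N4 g ^ 3) := by ring
  rw [h3] at h2
  have hpos : 0 < N4 A := by linarith
  have h4 : 0 < N4 A ^ 3 + N4 g * N4 A ^ 2 + N4 g ^ 2 * N4 A + N4 g ^ 3 := by positivity
  have h5 := le_of_mul_le_mul_right h2 h4
  linarith

omit [DecidableEq G] in
/-- **Transference.** -/
theorem transfer (f g A : G → ℝ) (hA : ∀ x, A x = f x + g x) (M κ : ℝ) (hM : 0 ≤ M) (hκ : 0 ≤ κ) (hκ1 : κ ≤ 1)
    (hf : En f ≤ κ ^ 4 * M) (hg : En g ≤ M) (x : G) :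
    rr g g g g x - 15 * κ * M ≤ rr A A A A x := by
  obtain ⟨m, hm0, hm⟩ : ∃ m : ℝ, 0 ≤ m ∧ m ^ 4 = M := by
    refine ⟨Real.sqrt (Real.sqrt M), Real.sqrt_nonneg _, ?_⟩
    have h : (Real.sqrt (Real.sqrt M)) ^ 4 = ((Real.sqrt (Real.sqrt M)) ^ 2) ^ 2 := by ring
    rw [h, Real.sq_sqrt (Real.sqrt_nonneg _), Real.sq_sqrt hM]
  have hF : N4 f ≤ κ * m := by
    have h1 : N4 f ^ 4 ≤ (κ * m) ^ 4 := by rw [N4_pow, mul_pow, hm]; exact hf
    exact (pow_le_pow_iff_left₀ (N4_nonneg f) (by positivity) (by norm_num)).1 h1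
  have hGn : N4 g ≤ m := by
    have h1 : N4 g ^ 4 ≤ m ^ 4 := by rw [N4_pow, hm]; exact hg
    exact (pow_le_pow_iff_left₀ (N4_nonneg g) hm0 (by norm_num)).1 h1
  have hE : N4 A ≤ 2 * m := by
    have h1 := N4_add_le f g A hA
    have h2 : κ * m ≤ 1 * m := mul_le_mul_of_nonneg_right hκ1 hm0
    linarith
  have hf0 := N4_nonneg f
  have hg0 := N4_nonneg g
  have hA0 := N4_nonneg A
  have h1 := tele_bound f g A hA x
  have h2 := (abs_le.1 h1).1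
  have h3 : N4 f * (N4 A ^ 3 + N4 g * N4 A ^ 2 + N4 g ^ 2 * N4 A + N4 g ^ 3) ≤
      κ * m * ((2 * m) ^ 3 + m * (2 * m) ^ 2 + m ^ 2 * (2 * m) + m ^ 3) := by
    gcongr
  have h4 : κ * m * ((2 * m) ^ 3 + m * (2 * m) ^ 2 + m ^ 2 * (2 * m) + m ^ 3) = 15 * κ * m ^ 4 := by ring
  rw [h4, hm] at h3
  linarith

/-- The indicator function. -/
def ind (S : Finset G) (x : G) : ℝ := if x ∈ S then 1 else 0

omit [AddCommGroup G] [Fintype G] in
lemma ind_nonneg (S : Finset G) (x : G) : 0 ≤ ind S x := by unfold ind; split_ifs <;> norm_num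

omit [AddCommGroup G] [Fintype G] in
lemma ind_le (S : Finset G) (x : G) : ind S x ≤ 1 := by unfold ind; split_ifs <;> norm_num

omit [AddCommGroup G] in
lemma sum_ind (S : Finset G) : ∑ x, ind S x = S.card := by
  unfold ind
  rw [sum_ite_mem, univ_inter, sum_const, nsmul_eq_mul, mul_one]

lemma En_ind_le (S : Finset G) : En (ind S) ≤ (S.card : ℝ) ^ 3 := by
  rw [← rr_zero]
  unfold rr
  calc ∑ a, ∑ b, ∑ c, ind S a * ind S b * ind S c * ind S (a + b - c - 0)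
      ≤ ∑ a, ∑ b, ∑ c, ind S a * ind S b * ind S c := by
        refine sum_le_sum fun a _ => sum_le_sum fun b _ => sum_le_sum fun c _ => ?_
        have h1 : 0 ≤ ind S a * ind S b * ind S c :=
          mul_nonneg (mul_nonneg (ind_nonneg S a) (ind_nonneg S b)) (ind_nonneg S c)
        exact mul_le_of_le_one_right h1 (ind_le S _)
    _ = (S.card : ℝ) ^ 3 := by
        simp only [← mul_sum, ← sum_mul, sum_ind]
        ring

omit [DecidableEq G] in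
lemma rr_smul (δ : ℝ) (f : G → ℝ) (x : G) :
    rr (fun y => δ * f y) (fun y => δ * f y) (fun y => δ * f y) (fun y => δ * f y) x = δ ^ 4 * rr f f f f x := by
  unfold rr
  simp only [mul_sum]
  refine sum_congr rfl fun a _ => sum_congr rfl fun b _ => sum_congr rfl fun c _ => ?_
  ring

lemma exists_of_pos (A : Finset G) (x : G) (h : 0 < rr (ind A) (ind A) (ind A) (ind A) x) :
    ∃ a₁ ∈ A, ∃ a₂ ∈ A, ∃ a₃ ∈ A, ∃ a₄ ∈ A, x = a₁ + a₂ - a₃ - a₄ := by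
  unfold rr at h
  obtain ⟨a, _, ha⟩ := exists_ne_zero_of_sum_ne_zero h.ne'
  obtain ⟨b, _, hb⟩ := exists_ne_zero_of_sum_ne_zero ha
  obtain ⟨c, _, hc⟩ := exists_ne_zero_of_sum_ne_zero hb
  have h1 : a ∈ A ∧ b ∈ A ∧ c ∈ A ∧ a + b - c - x ∈ A := by
    unfold ind at hc
    refine ⟨?_, ?_, ?_, ?_⟩ <;> (by_contra hn; apply hc; simp [hn])
  exact ⟨a, h1.1, b, h1.2.1, c, h1.2.2.1, a + b - c - x, h1.2.2.2, by abel⟩

/-- If `A` is close to `δ 1_S` in the energy norm then the popular elements of `2S - 2S` are in `2A - 2A`. -/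
theorem popular (S A : Finset G) (δ κ ρ : ℝ) (hδ : 0 < δ) (hS : S.Nonempty) (hκ : 0 ≤ κ) (hκ1 : κ ≤ 1)
    (hρ : 15 * κ < ρ)
    (hEn : En (fun x => ind A x - δ * ind S x) ≤ κ ^ 4 * (δ ^ 4 * (S.card : ℝ) ^ 3)) (x : G)
    (hx : ρ * (S.card : ℝ) ^ 3 ≤ rr (ind S) (ind S) (ind S) (ind S) x) :
    ∃ a₁ ∈ A, ∃ a₂ ∈ A, ∃ a₃ ∈ A, ∃ a₄ ∈ A, x = a₁ + a₂ - a₃ - a₄ := by
  apply exists_of_pos
  have hSc : (0 : ℝ) < S.card := by exact_mod_cast hS.card_pos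
  have hM : 0 < δ ^ 4 * (S.card : ℝ) ^ 3 := by positivity
  have hg : En (fun y => δ * ind S y) ≤ δ ^ 4 * (S.card : ℝ) ^ 3 := by
    rw [← rr_zero, rr_smul, rr_zero]
    exact mul_le_mul_of_nonneg_left (En_ind_le S) (by positivity)
  have h1 := transfer (fun y => ind A y - δ * ind S y) (fun y => δ * ind S y) (ind A)
    (fun y => by ring) _ κ hM.le hκ hκ1 hEn hg x
  rw [rr_smul] at h1
  have h2 : δ ^ 4 * (ρ * (S.card : ℝ) ^ 3) ≤ δ ^ 4 * rr (ind S) (ind S) (ind S) (ind S) x :=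
    mul_le_mul_of_nonneg_left hx (by positivity)
  have h3 : 0 < (ρ - 15 * κ) * (δ ^ 4 * (S.card : ℝ) ^ 3) := mul_pos (by linarith) hM
  nlinarith

end Run7.h671.RS
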