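import Pool.Agent.Run7.h671.RS.Prog

/-!
# Q1 for subsets of translates of proper coset progressions that are close to random subsets
-/

set_option autoImplicit false

namespace Run7.h671.RS

open Finset Pool.Agent.TH858

variable {N : ℕ} [NeZero N]

lemma prog_mono {d : ℕ} (H : AddSubgroup (ZMod N)) (a : Fin d → ZMod N) (L : Fin d → ℕ) (h : Proper H a L) :
    Proper H a (fun i => L i / 4) := by
  intro n n' hn hn' hs
  refine h n n' (fun i => (hn i).trans ?_) (fun i => (hn' i).trans ?_) hs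
  · exact_mod_cast Nat.div_le_self _ _
  · exact_mod_cast Nat.div_le_self _ _

lemma card_quarter {d : ℕ} (H : AddSubgroup (ZMod N)) (a : Fin d → ZMod N) (L : Fin d → ℕ) (h : Proper H a L) :
    ((cosetProg H a L).ncard : ℝ) ≤ 7 ^ d * ((cosetProg H a (fun i => L i / 4)).ncard : ℝ) := by
  rw [card_cosetProg (NeZero.pos N) H a L h, card_cosetProg (NeZero.pos N) H a _ (prog_mono H a L h),
    GP.card_box, GP.card_box]
  have h1 : (∏ i, (2 * L i + 1) : ℕ) ≤ ∏ i : Fin d, (7 * (2 * (L i / 4) + 1)) := by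
    refine prod_le_prod' fun i _ => ?_
    omega
  have h2 : (∏ i : Fin d, (7 * (2 * (L i / 4) + 1)) : ℕ) = 7 ^ d * ∏ i, (2 * (L i / 4) + 1) := by
    rw [prod_mul_distrib, prod_const, card_univ, Fintype.card_fin]
  rw [h2] at h1
  have h3 : ((∏ i, (2 * L i + 1) : ℕ) : ℝ) ≤ 7 ^ d * ((∏ i, (2 * (L i / 4) + 1) : ℕ) : ℝ) := by exact_mod_cast h1
  push_cast at h3 ⊢
  calc (Nat.card H : ℝ) * ∏ i, (2 * (L i : ℝ) + 1)
      ≤ (Nat.card H : ℝ) * (7 ^ d * ∏ i, (2 * ((L i / 4 : ℕ) : ℝ) + 1)) := by gcongr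
    _ = _ := by ring

/-- `S` is the translate `t + P`. -/
def IsTranslate {d : ℕ} (S : Finset (ZMod N)) (t : ZMod N) (H : AddSubgroup (ZMod N)) (a : Fin d → ZMod N)
    (L : Fin d → ℕ) : Prop := ∀ x, x ∈ S ↔ x - t ∈ cosetProg H a L

lemma card_translate {d : ℕ} (S : Finset (ZMod N)) (t : ZMod N) (H : AddSubgroup (ZMod N)) (a : Fin d → ZMod N)
    (L : Fin d → ℕ) (h : IsTranslate S t H a L) : (S.card : ℝ) = ((cosetProg H a L).ncard : ℝ) := by
  have h1 : (S : Set (ZMod N)) = (fun x => x + t) '' cosetProg H a L := by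
    ext x
    rw [mem_coe, h x]
    constructor
    · intro hx
      exact ⟨x - t, hx, by ring⟩
    · rintro ⟨y, hy, rfl⟩
      simpa using hy
  have h2 := Set.ncard_image_of_injective (cosetProg H a L) (add_left_injective t)
  rw [← h1, Set.ncard_coe_finset] at h2
  exact_mod_cast h2

lemma quad_mem {d : ℕ} (H : AddSubgroup (ZMod N)) (a : Fin d → ZMod N) (L : Fin d → ℕ) (p q r x : ZMod N)
    (hp : p ∈ cosetProg H a (fun i => L i / 4)) (hq : q ∈ cosetProg H a (fun i => L i / 4))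
    (hr : r ∈ cosetProg H a (fun i => L i / 4)) (hx : x ∈ cosetProg H a (fun i => L i / 4)) :
    p + q - r - x ∈ cosetProg H a L := by
  obtain ⟨h1, hh1, n1, hn1, rfl⟩ := hp
  obtain ⟨h2, hh2, n2, hn2, rfl⟩ := hq
  obtain ⟨h3, hh3, n3, hn3, rfl⟩ := hr
  obtain ⟨h4, hh4, n4, hn4, rfl⟩ := hx
  refine ⟨h1 + h2 - h3 - h4, H.sub_mem (H.sub_mem (H.add_mem hh1 hh2) hh3) hh4, n1 + n2 - n3 - n4, fun i => ?_, ?_⟩
  · have a1 := abs_le.1 (hn1 i)
    have a2 := abs_le.1 (hn2 i)
    have a3 := abs_le.1 (hn3 i)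
    have a4 := abs_le.1 (hn4 i)
    simp only [Pi.sub_apply, Pi.add_apply]
    beta_reduce at a1 a2 a3 a4
    rw [abs_le]
    omega
  · simp only [Pi.sub_apply, Pi.add_apply]
    push_cast
    simp only [sub_mul, add_mul, sum_sub_distrib, sum_add_distrib]
    ring

lemma sub_quarter {d : ℕ} (H : AddSubgroup (ZMod N)) (a : Fin d → ZMod N) (L : Fin d → ℕ) (x : ZMod N)
    (hx : x ∈ cosetProg H a (fun i => L i / 4)) : x ∈ cosetProg H a L := by
  obtain ⟨h, hh, n, hn, rfl⟩ := hx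
  exact ⟨h, hh, n, fun i => (hn i).trans (by exact_mod_cast Nat.div_le_self _ _), rfl⟩

/-- The elements of the quarter of the progression have many representations. -/
lemma prog_popular {d : ℕ} (S : Finset (ZMod N)) (t : ZMod N) (H : AddSubgroup (ZMod N)) (a : Fin d → ZMod N)
    (L : Fin d → ℕ) (hprop : Proper H a L) (h : IsTranslate S t H a L) (x : ZMod N)
    (hx : x ∈ cosetProg H a (fun i => L i / 4)) :
    (1 / 343 : ℝ) ^ d * (S.card : ℝ) ^ 3 ≤ rr (ind S) (ind S) (ind S) (ind S) x := by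
  classical
  obtain ⟨Q, hQ⟩ : ∃ Q : Finset (ZMod N), Q = univ.filter fun y => y - t ∈ cosetProg H a (fun i => L i / 4) :=
    ⟨_, rfl⟩
  have hQt : IsTranslate Q t H a (fun i => L i / 4) := by
    intro y
    rw [hQ, mem_filter]
    simp
  have hQc := card_translate Q t H a _ hQt
  have hSc := card_translate S t H a L h
  have hle := card_quarter H a L hprop
  rw [← hSc, ← hQc] at hle
  have hQS : ∀ y ∈ Q, y ∈ S := fun y hy => (h y).2 (sub_quarter H a L _ ((hQt y).1 hy))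
  have h1 : (Q.card : ℝ) ^ 3 ≤ rr (ind S) (ind S) (ind S) (ind S) x := by
    have e : (Q.card : ℝ) ^ 3 = ∑ p, ∑ q, ∑ r, ind Q p * ind Q q * ind Q r := by
      simp only [← mul_sum, ← sum_mul, sum_ind]
      ring
    rw [e]
    unfold rr
    refine sum_le_sum fun p _ => sum_le_sum fun q _ => sum_le_sum fun r _ => ?_
    by_cases hp : p ∈ Q
    · by_cases hq : q ∈ Q
      · by_cases hr : r ∈ Q
        · have h4 : p + q - r - x ∈ S := by
            rw [h]
            have h5 := quad_mem H a L (p - t) (q - t) (r - t) x ((hQt p).1 hp) ((hQt q).1 hq) ((hQt r).1 hr) hx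
            have h6 : p - t + (q - t) - (r - t) - x = p + q - r - x - t := by ring
            rwa [h6] at h5
          simp [ind, hp, hq, hr, hQS p hp, hQS q hq, hQS r hr, h4]
        · have : ind Q r = 0 := by simp [ind, hr]
          rw [this, mul_zero]
          exact mul_nonneg (mul_nonneg (mul_nonneg (ind_nonneg _ _) (ind_nonneg _ _)) (ind_nonneg _ _)) (ind_nonneg _ _)
      · have : ind Q q = 0 := by simp [ind, hq]
        rw [this, mul_zero, zero_mul]
        exact mul_nonneg (mul_nonneg (mul_nonneg (ind_nonneg _ _) (ind_nonneg _ _)) (ind_nonneg _ _)) (ind_nonneg _ _)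
    · have : ind Q p = 0 := by simp [ind, hp]
      rw [this, zero_mul, zero_mul]
      exact mul_nonneg (mul_nonneg (mul_nonneg (ind_nonneg _ _) (ind_nonneg _ _)) (ind_nonneg _ _)) (ind_nonneg _ _)
  refine le_trans ?_ h1
  calc (1 / 343 : ℝ) ^ d * (S.card : ℝ) ^ 3 ≤ (1 / 343 : ℝ) ^ d * (7 ^ d * (Q.card : ℝ)) ^ 3 := by gcongr
    _ = (1 / 343 * 7 ^ 3 : ℝ) ^ d * (Q.card : ℝ) ^ 3 := by
        rw [mul_pow (7 ^ d : ℝ), ← pow_mul, mul_comm d 3, pow_mul, mul_pow, mul_assoc]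
    _ = (Q.card : ℝ) ^ 3 := by norm_num

lemma log_seven : Real.log 7 ≤ 2 := by
  rw [Real.log_le_iff_le_exp (by norm_num)]
  have h := Real.exp_one_gt_d9
  have e : Real.exp 2 = Real.exp 1 ^ 2 := by rw [← Real.exp_nat_mul]; norm_num
  rw [e]
  nlinarith

/-- The conclusion of Q1 if the quarter of the progression is contained in `2A - 2A`. -/
lemma prog_concl (D : ℝ) (hD : 0 < D) {d : ℕ} (S : Finset (ZMod N)) (t : ZMod N) (H : AddSubgroup (ZMod N))
    (a : Fin d → ZMod N) (L : Fin d → ℕ) (hprop : Proper H a L) (h : IsTranslate S t H a L) (A : Finset (ZMod N))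
    (hAne : A.Nonempty) (hα : (A.card : ℝ) / (N : ℝ) ≤ 1 / 2)
    (hd : (d : ℝ) ≤ D * Real.log ((N : ℝ) / (A.card : ℝ)))
    (hden : Real.log ((N : ℝ) / (S.card : ℝ)) ≤
      D * Real.log ((N : ℝ) / (A.card : ℝ)) * Real.log (2 + Real.log ((N : ℝ) / (A.card : ℝ))))
    (hsub : cosetProg H a (fun i => L i / 4) ⊆ twoAMinusTwoA A) :
    ∀ C : ℝ, 740 * D + 26 ≤ C → Q1For C A := by
  intro C hC
  obtain ⟨h5, h6⟩ := ell_facts (NeZero.pos N) A hAne hα
  have hlog2 := Real.log_two_gt_d9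
  obtain ⟨l, hl⟩ : ∃ l : ℝ, l = Real.log ((N : ℝ) / (A.card : ℝ)) := ⟨_, rfl⟩
  rw [← hl] at h5 h6
  have hl0 : 0 < l := by linarith
  refine of_prog (4 * D) (by positivity) (NeZero.pos N) A hAne hα H d a _ (prog_mono H a L hprop) ?_ hsub ?_ C
    (by linarith)
  · rw [← hl] at hd ⊢
    have : 0 < D * l := by positivity
    linarith
  · rw [← hl] at hd hden ⊢
    have hSc := card_translate S t H a L h
    have hle := card_quarter H a L hprop
    rw [← hSc] at hle
    have hNpos : (0 : ℝ) < N := by exact_mod_cast NeZero.pos N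
    have hS0 : (0 : ℝ) < S.card := by
      have : t ∈ S := (h t).2 ⟨0, H.zero_mem, 0, fun i => by simp, by simp⟩
      exact_mod_cast card_pos.2 ⟨t, this⟩
    obtain ⟨q, hq⟩ : ∃ q : ℝ, q = ((cosetProg H a (fun i => L i / 4)).ncard : ℝ) := ⟨_, rfl⟩
    rw [← hq] at hle ⊢
    have hq0 : 0 < q := by
      by_contra hcon
      push Not at hcon
      have : 7 ^ d * q ≤ 0 := mul_nonpos_of_nonneg_of_nonpos (by positivity) hcon
      linarith
    have h7 : Real.log (N / q) ≤ Real.log (N / S.card) + d * Real.log 7 := by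
      have h8 : (N : ℝ) / q ≤ (N / S.card) * 7 ^ d := by
        rw [div_mul_eq_mul_div, div_le_div_iff₀ hq0 hS0]
        calc (N : ℝ) * S.card ≤ N * (7 ^ d * q) := by gcongr
          _ = _ := by ring
      refine (Real.log_le_log (by positivity) h8).trans ?_
      rw [Real.log_mul (by positivity) (by positivity), Real.log_pow]
    have h9 : (d : ℝ) * Real.log 7 ≤ 2 * (D * l) := by
      have h10 := log_seven
      have h11 : 0 ≤ Real.log 7 := Real.log_nonneg (by norm_num)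
      calc (d : ℝ) * Real.log 7 ≤ (D * l) * 2 := by gcongr
        _ = _ := by ring
    have h12 : 2 * (D * l) ≤ 3 * (D * l * Real.log (2 + l)) := by
      have : 0 < D * l := by positivity
      nlinarith
    calc Real.log (N / q) ≤ D * l * Real.log (2 + l) + 3 * (D * l * Real.log (2 + l)) := by linarith
      _ = 4 * D * l * Real.log (2 + l) := by ring

/-- **Deterministic form.** -/
theorem prog_det (D : ℝ) (hD : 0 < D) {d : ℕ} (S : Finset (ZMod N)) (t : ZMod N) (H : AddSubgroup (ZMod N))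
    (a : Fin d → ZMod N) (L : Fin d → ℕ) (hprop : Proper H a L) (h : IsTranslate S t H a L)
    (A A' : Finset (ZMod N)) (hA' : A' ⊆ A) (δ : ℝ) (hδ : 0 < δ)
    (hEn : En (fun x => ind A' x - δ * ind S x) ≤ ((1 / 343) ^ d / 16) ^ 4 * (δ ^ 4 * (S.card : ℝ) ^ 3))
    (hAne : A.Nonempty) (hα : (A.card : ℝ) / (N : ℝ) ≤ 1 / 2)
    (hd : (d : ℝ) ≤ D * Real.log ((N : ℝ) / (A.card : ℝ)))
    (hden : Real.log ((N : ℝ) / (S.card : ℝ)) ≤
      D * Real.log ((N : ℝ) / (A.card : ℝ)) * Real.log (2 + Real.log ((N : ℝ) / (A.card : ℝ)))) :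
    ∀ C : ℝ, 740 * D + 26 ≤ C → Q1For C A := by
  have hSne : S.Nonempty := ⟨t, (h t).2 ⟨0, H.zero_mem, 0, fun i => by simp, by simp⟩⟩
  have hρ1 : (1 / 343 : ℝ) ^ d ≤ 1 := pow_le_one₀ (by norm_num) (by norm_num)
  have hρ0 : 0 < (1 / 343 : ℝ) ^ d := by positivity
  refine prog_concl D hD S t H a L hprop h A hAne hα hd hden fun x hx => ?_
  obtain ⟨a₁, h₁, a₂, h₂, a₃, h₃, a₄, h₄, he⟩ := popular S A' δ ((1 / 343) ^ d / 16) ((1 / 343) ^ d) hδ hSne
    (by positivity) (by linarith) (by linarith) hEn x (prog_popular S t H a L hprop h x hx)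
  exact ⟨a₁, hA' h₁, a₂, hA' h₂, a₃, hA' h₃, a₄, hA' h₄, he⟩

lemma log_343 : Real.log 343 ≤ 6 := by
  have : (343 : ℝ) = 7 ^ 3 := by norm_num
  rw [this, Real.log_pow]
  have := log_seven
  push_cast
  linarith

/-- **Random form.** -/
theorem prog_random (D : ℝ) (hD : 0 < D) {d : ℕ} (S : Finset (ZMod N)) (t : ZMod N) (H : AddSubgroup (ZMod N))
    (a : Fin d → ZMod N) (L : Fin d → ℕ) (hprop : Proper H a L) (h : IsTranslate S t H a L)
    (δ : ℝ) (hδ : 0 < δ) (hδ1 : δ ≤ 1) (C : ℝ) (hC : 370 * (36 + 42 * D) + 740 * D + 26 ≤ C)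
    (Bad : Finset (ZMod N) → Prop) [DecidablePred Bad]
    (hBad : ∀ A, Bad A → A.Nonempty ∧ (A.card : ℝ) / (N : ℝ) ≤ 1 / 2 ∧
      (d : ℝ) ≤ D * Real.log ((N : ℝ) / (A.card : ℝ)) ∧
      Real.log ((N : ℝ) / (S.card : ℝ)) ≤
        D * Real.log ((N : ℝ) / (A.card : ℝ)) * Real.log (2 + Real.log ((N : ℝ) / (A.card : ℝ))) ∧
      ¬ Q1For C A) :
    ∑ A ∈ S.powerset with Bad A, wt δ S A ≤ (N : ℝ) ^ (-(1 / 8 : ℝ)) := by
  have hSne : S.Nonempty := ⟨t, (h t).2 ⟨0, H.zero_mem, 0, fun i => by simp, by simp⟩⟩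
  refine prob_bound S hSne δ hδ hδ1 ((1 / 343) ^ d) (by positivity) (pow_le_one₀ (by norm_num) (by norm_num))
    (6 * D) Bad ?_ ?_ ?_
  · intro A _ hA
    obtain ⟨b1, b2, b3, b4, b5⟩ := hBad A hA
    refine ⟨b1, b2, ?_⟩
    have e : (1 : ℝ) / (1 / 343) ^ d = 343 ^ d := by
      rw [one_div, one_div, inv_pow, inv_inv]
    rw [e, Real.log_pow]
    have h1 := log_343
    have h2 : 0 ≤ Real.log 343 := Real.log_nonneg (by norm_num)
    unfold ell
    have hd0 : (0 : ℝ) ≤ d := Nat.cast_nonneg d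
    calc (d : ℝ) * Real.log 343 ≤ d * 6 := by gcongr
      _ ≤ (D * Real.log ((N : ℝ) / (A.card : ℝ))) * 6 := by gcongr
      _ = _ := by ring
  · intro A _ hA
    obtain ⟨b1, b2, b3, b4, b5⟩ := hBad A hA
    by_contra hcon
    push Not at hcon
    apply b5
    refine prog_concl D hD S t H a L hprop h A b1 b2 b3 b4 (fun x hx => ?_) C (by linarith)
    exact hcon x (prog_popular S t H a L hprop h x hx)
  · intro A _ hA
    obtain ⟨b1, b2, b3, b4, b5⟩ := hBad A hA
    by_contra hcon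
    push Not at hcon
    apply b5
    unfold ell at hcon
    refine of_sparse (36 + 7 * (6 * D)) (by positivity) (NeZero.pos N) A b1 b2 hcon C ?_
    linarith

end Run7.h671.RS
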