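import Pool.Agent.N142.CD.FIN2
import Pool.Agent.N142.CD.AP
import Pool.Agent.N142.CD.FOU

/-!
# Popular elements of `2A - 2A` for sets of moderate doubling

The proofs of the starting files `N142/CD/{AP,FOU,ASM2,FIN2}.lean` (projects of helper142) are repeated with a
subset `S` of `A + A` in the place of `A + A`.
-/

set_option autoImplicit false

namespace Run7.h671.RS

open Finset Pool.Agent.TH858 Pool.Agent.N142.CD
open scoped Pointwise

/-- Almost periodicity with an arbitrary subset `S` of `A + A`; the proof is that of `t_AP`. -/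
theorem ap_gen (h : S_CS) : ∃ C : ℝ, 0 < C ∧ ∀ (N : ℕ) [NeZero N] (A S : Finset (ZMod N)) (K : ℝ) (l : ℕ),
    A.Nonempty → 1 ≤ K → ((A + A).card : ℝ) ≤ K * A.card → S ⊆ A + A → 1 ≤ l →
    ∃ T : Finset (ZMod N), T ⊆ A ∧
      (A.card : ℝ) ≤ Real.exp (C * l ^ 2 * Real.log (2 * K) ^ 2) * T.card ∧
      ∀ s ∈ T, ∀ s' ∈ T, ∀ y : ZMod N, |gn A S (y + s - s') - gn A S y| ≤ 1 / (16 * l) := by
  refine ⟨390003, by norm_num, ?_⟩
  intro N _ A S K l hA hK hAA hSA hl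
  have hA0 : (0 : ℝ) < A.card := by exact_mod_cast hA.card_pos
  have hl' : (1 : ℝ) ≤ l := by exact_mod_cast hl
  set L : ℝ := Real.log (2 * K) with hL
  have hL2 : 1 / 2 ≤ L := by
    have h1 : Real.log 2 ≤ L := Real.log_le_log (by norm_num) (by linarith)
    have h2 := Real.log_two_gt_d9
    linarith
  have hexpL : Real.exp L = 2 * K := by rw [hL, Real.exp_log (by linarith)]
  set m : ℕ := ⌈L⌉₊ with hm
  have hmL : L ≤ m := Nat.le_ceil _
  have hm1 : 1 ≤ m := Nat.one_le_iff_ne_zero.2 (by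
    intro h0
    rw [h0] at hmL
    simp only [Nat.cast_zero] at hmL
    linarith)
  have hm1' : (1 : ℝ) ≤ m := by exact_mod_cast hm1
  have hmL3 : (m : ℝ) ≤ 3 * L := by
    have := Nat.ceil_lt_add_one (by linarith : 0 ≤ L)
    rw [← hm] at this
    linarith
  set k : ℕ := 130000 * m * l ^ 2 with hk
  have hk1 : 1 ≤ k := by
    rw [hk]
    have : 1 ≤ l ^ 2 := Nat.one_le_pow _ _ hl
    calc 1 = 1 * 1 * 1 := rfl
      _ ≤ 130000 * m * l ^ 2 := Nat.mul_le_mul (Nat.mul_le_mul (by norm_num) hm1) this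
  have hkr : (k : ℝ) = 130000 * m * l ^ 2 := by
    rw [hk]
    push_cast
    ring
  obtain ⟨T, hTA, hT, hper⟩ := h N A S K k m hA hAA hk1 hm1
  refine ⟨T, hTA, ?_, ?_⟩
  · refine hT.trans (mul_le_mul_of_nonneg_right ?_ (by positivity))
    calc 2 * K ^ k ≤ (2 * K) * (2 * K) ^ k := by
          refine mul_le_mul (by linarith) (pow_le_pow_left₀ (by linarith) (by linarith) k) (by positivity)
            (by linarith)
      _ = Real.exp ((k + 1 : ℕ) * L) := by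
          rw [Real.exp_nat_mul, hexpL, pow_succ]
          ring
      _ ≤ Real.exp (390003 * l ^ 2 * L ^ 2) := by
          refine Real.exp_le_exp.2 ?_
          push_cast
          rw [hkr]
          have hl2 : (1 : ℝ) ≤ (l : ℝ) ^ 2 := one_le_pow₀ hl'
          have hml : (1 : ℝ) ≤ m * (l : ℝ) ^ 2 := by nlinarith
          have h5 : (130000 * m * (l : ℝ) ^ 2 + 1) ≤ 130001 * (m * (l : ℝ) ^ 2) := by linarith
          have h6 : m * (l : ℝ) ^ 2 ≤ 3 * L * (l : ℝ) ^ 2 := mul_le_mul_of_nonneg_right hmL3 (by positivity)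
          calc (130000 * m * (l : ℝ) ^ 2 + 1) * L ≤ (130001 * (3 * L * (l : ℝ) ^ 2)) * L :=
                mul_le_mul_of_nonneg_right (by linarith) (by linarith)
            _ = 390003 * l ^ 2 * L ^ 2 := by ring
  · intro s hs s' hs' y
    have h1 := AP.gn_pow A S hA m s s' y
    have h2 := hper s hs s' hs'
    have h3 : ((S - A).card : ℝ) ≤ K ^ 3 * A.card := by
      refine le_trans ?_ (AP.triple A K hA hAA)
      exact_mod_cast card_le_card (sub_subset_sub_right hSA)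
    have hr : (6 * m / k : ℝ) = 6 / (130000 * l ^ 2) := by
      rw [hkr]
      field_simp
    have h4 : (gn A S (y + s - s') - gn A S y) ^ (2 * m) ≤ (1 / (16 * l)) ^ (2 * m) := by
      calc (gn A S (y + s - s') - gn A S y) ^ (2 * m)
          ≤ (∑ x, (Fn A S (x + s) - Fn A S (x + s')) ^ (2 * m)) / A.card := h1
        _ ≤ (2 ^ (2 * m) * (2 * ((S - A).card * (6 * m / k : ℝ) ^ m))) / A.card :=
            div_le_div_of_nonneg_right h2 hA0.le
        _ ≤ (2 ^ (2 * m) * (2 * ((K ^ 3 * A.card) * (6 * m / k : ℝ) ^ m))) / A.card := by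
            refine div_le_div_of_nonneg_right ?_ hA0.le
            refine mul_le_mul_of_nonneg_left ?_ (by positivity)
            refine mul_le_mul_of_nonneg_left ?_ (by norm_num)
            exact mul_le_mul_of_nonneg_right h3 (by positivity)
        _ = (2 * K ^ 3) * (24 / (130000 * l ^ 2) : ℝ) ^ m := by
            rw [hr, pow_mul]
            have : (24 / (130000 * l ^ 2) : ℝ) = 2 ^ 2 * (6 / (130000 * l ^ 2)) := by ring
            rw [this, mul_pow]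
            field_simp
        _ ≤ (20.1 : ℝ) ^ m * (24 / (130000 * l ^ 2) : ℝ) ^ m := by
            refine mul_le_mul_of_nonneg_right ?_ (by positivity)
            calc 2 * K ^ 3 ≤ (2 * K) ^ 3 := by
                  have : (0 : ℝ) ≤ K ^ 3 := by positivity
                  nlinarith
              _ = Real.exp (3 * L) := by
                  rw [← hexpL, ← Real.exp_nat_mul]
                  norm_num
              _ ≤ Real.exp (m * 3) := Real.exp_le_exp.2 (by linarith)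
              _ = Real.exp 3 ^ m := Real.exp_nat_mul _ _
              _ ≤ 20.1 ^ m := pow_le_pow_left₀ (Real.exp_pos _).le AP.exp_three m
        _ = (20.1 * (24 / (130000 * l ^ 2)) : ℝ) ^ m := (mul_pow _ _ _).symm
        _ ≤ ((1 / (16 * l)) ^ 2) ^ m := by
            refine pow_le_pow_left₀ (by positivity) ?_ m
            rw [div_pow, one_pow, mul_div_assoc', div_le_div_iff₀ (by positivity) (by positivity)]
            nlinarith [sq_nonneg (l : ℝ)]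
        _ = (1 / (16 * l)) ^ (2 * m) := (pow_mul _ _ _).symm
    by_contra hcon
    push Not at hcon
    have h5 : (1 / (16 * l) : ℝ) ^ (2 * m) < |gn A S (y + s - s') - gn A S y| ^ (2 * m) :=
      pow_lt_pow_left₀ hcon (by positivity) (by omega)
    rw [(even_two_mul m).pow_abs] at h5
    exact absurd h4 (not_le.2 h5)

/-- The Fourier step with an arbitrary subset `S` of `A + A`; compare `t_FOU`. -/
theorem fou_gen (N : ℕ) [NeZero N] (A S T : Finset (ZMod N)) (K : ℝ) (l : ℕ) (hA : A.Nonempty) (hT : T.Nonempty)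
    (hK : 1 ≤ K) (hAA : ((A + A).card : ℝ) ≤ K * A.card) (hSA : S ⊆ A + A) (hS0 : 1 / 2 ≤ gn A S 0) (hl : 1 ≤ l)
    (h16 : 16 * K ≤ 4 ^ l)
    (hper : ∀ s ∈ T, ∀ s' ∈ T, ∀ y : ZMod N, |gn A S (y + s - s') - gn A S y| ≤ 1 / (16 * l)) (y : ZMod N)
    (hy : ∀ γ : ZMod N, (T.card : ℝ) / 2 ≤ ‖∑ t ∈ T, ψ (γ * t)‖ → ‖ψ (γ * y) - 1‖ ≤ 1 / (8 * K)) :
    1 / 4 ≤ gn A S y := by
  have hl' : (1 : ℝ) ≤ l := by exact_mod_cast hl
  have hSc : (S.card : ℝ) ≤ K * A.card := by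
    refine le_trans ?_ hAA
    exact_mod_cast card_le_card hSA
  have h1 := FOU.gj_diff A S T hT _ hper l y
  have h2 := FOU.gj_diff A S T hT _ hper l 0
  have h3 := FOU.gj_far A S T K l hA hK hSc h16 hT y hy
  have h5 : (l : ℝ) * (1 / (16 * l)) = 1 / 16 := by field_simp
  rw [h5] at h1 h2
  have a1 := abs_le.1 h1
  have a2 := abs_le.1 h2
  have a3 := abs_le.1 h3
  linarith [a1.1, a1.2, a2.1, a2.2, a3.1, a3.2]

/-- The combinatorial part for an arbitrary conclusion `Q`; the proof is that of `comb`. -/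
theorem comb_gen (hVOL : S_VOL) (hINV : S_INV) (hLCH : S_LCH)
    (N : ℕ) [NeZero N] (T₁ : Finset (ZMod N)) (K : ℝ) (hK : 1 ≤ K) (Q : ZMod N → Prop)
    (hT : T₁.Nonempty)
    (hF : ∀ y : ZMod N, (∀ γ : ZMod N, (T₁.card : ℝ) / 2 ≤ ‖∑ t ∈ T₁, ψ (γ * t)‖ → ‖ψ (γ * y) - 1‖ ≤ 1 / (8 * K)) →
      Q y)
    (H : AddSubgroup (ZMod N)) (d : ℕ) (a : Fin d → ZMod N) (L : Fin d → ℕ) (hP : ProperH H a L) (t : ZMod N)
    (hTX : ∀ x ∈ T₁, x - t ∈ HP H a L) (n M : ℕ)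
    (hn : 8 * Real.log (4 * (HP H a L).card / T₁.card) ≤ n) (hM : 32 * ((d : ℝ) + 1) * K ≤ M)
    (R J : ℕ) (hR : (d : ℝ) + 2 ≤ R) (hJ : 8 * Real.pi * K * n ≤ (R : ℝ) ^ (J + 1)) :
    ∃ Γ : Finset (ZMod N), (Γ.card : ℝ) ≤ n * (J + 1) + (175 * d + 1 +
      5 * (Real.log (N / (Nat.card H * (∏ i, (2 * (L i / (4 * (d + 1) * (n + 1) * M)) + 1) : ℕ))) / Real.log R)) ∧
      ∀ y : ZMod N, (∀ g ∈ Γ, CB.nn (g * y) ≤ 1 / (8 * R)) → Q y := by
  classical
  have hKpos : 0 < K := by linarith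
  have hM1R : (1 : ℝ) ≤ M := by
    have : (1 : ℝ) ≤ 32 * ((d : ℝ) + 1) * K := by
      have h1 : (0 : ℝ) ≤ d := Nat.cast_nonneg d
      nlinarith
    linarith
  have hM1 : 1 ≤ M := by exact_mod_cast hM1R
  have hR2 : 2 ≤ R := by
    have : (2 : ℝ) ≤ R := by
      have h1 : (0 : ℝ) ≤ d := Nat.cast_nonneg d
      linarith
    exact_mod_cast this
  have hR0 : (0 : ℝ) < R := by exact_mod_cast (by omega : 0 < R)
  obtain ⟨m, hm⟩ : ∃ m : ℕ, m = n + 1 := ⟨_, rfl⟩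
  obtain ⟨L₂, hL₂⟩ : ∃ L₂ : Fin d → ℕ, L₂ = fun i => L i / (4 * (d + 1) * m) := ⟨_, rfl⟩
  obtain ⟨L₃, hL₃⟩ : ∃ L₃ : Fin d → ℕ, L₃ = fun i => L₂ i / M := ⟨_, rfl⟩
  have hq : 0 < 4 * (d + 1) * m := by rw [hm]; positivity
  have h21 : ∀ i, 4 * (d + 1) * m * L₂ i ≤ L i := fun i => by rw [hL₂]; exact Nat.mul_div_le _ _
  have h32 : ∀ i, M * L₃ i ≤ L₂ i := fun i => by rw [hL₃]; exact Nat.mul_div_le _ _
  have h32' : ∀ i, L₃ i ≤ L₂ i := fun i => by rw [hL₃]; exact Nat.div_le_self _ _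
  have h21' : ∀ i, 4 * L₂ i ≤ L i := fun i => by
    have h1 := h21 i
    have h2 : 4 * L₂ i ≤ 4 * (d + 1) * m * L₂ i := by
      have : 1 ≤ (d + 1) * m := by rw [hm]; exact Nat.one_le_iff_ne_zero.2 (by positivity)
      calc 4 * L₂ i = 4 * 1 * L₂ i := by ring
        _ ≤ 4 * ((d + 1) * m) * L₂ i := by gcongr
        _ = _ := by ring
    omega
  -- Chang
  obtain ⟨X, hX⟩ : ∃ X, X = HP H a L := ⟨_, rfl⟩
  obtain ⟨S, hS⟩ : ∃ S, S = HP H a L₂ := ⟨_, rfl⟩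
  obtain ⟨Y, hY⟩ : ∃ Y, Y = HP H a (fun i => L i + m * L₂ i) := ⟨_, rfl⟩
  have hYX : (Y.card : ℝ) ≤ 2 * X.card := by
    have h1 := (hVOL N H d a (fun i => L i + m * L₂ i)).1
    have h2 := (hVOL N H d a L).2 hP
    rw [← hY] at h1
    rw [← hX] at h2
    have h3 := AS.box_double L (fun i => m * L₂ i) (fun i => by
      have := h21 i
      calc 4 * (d + 1) * (m * L₂ i) = 4 * (d + 1) * m * L₂ i := by ring
        _ ≤ L i := this)
    calc (Y.card : ℝ) ≤ ((Nat.card H * ∏ i, (2 * (L i + m * L₂ i) + 1) : ℕ) : ℝ) := by exact_mod_cast h1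
      _ = (Nat.card H : ℝ) * ((∏ i, (2 * (L i + m * L₂ i) + 1) : ℕ) : ℝ) := by push_cast; ring
      _ ≤ (Nat.card H : ℝ) * (2 * ((∏ i, (2 * L i + 1) : ℕ) : ℝ)) := by gcongr
      _ = 2 * ((Nat.card H * ∏ i, (2 * L i + 1) : ℕ) : ℝ) := by push_cast; ring
      _ = 2 * X.card := by rw [h2]
  obtain ⟨Λ, hΛn, hΛ⟩ := hLCH N T₁ X Y S t m n hT ⟨0, by rw [hS]; exact AS.zero_mem_HP H a L₂⟩
    (fun s hs => by rw [hS] at hs ⊢; exact AS.neg_mem_HP H a L₂ s hs)
    (fun x hx => by rw [hX]; exact hTX x hx)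
    (fun x hx s hs => by
      rw [hY]
      rw [hX] at hx
      exact AS.sum_mem_HP H a L L₂ x hx m s fun i => by have := hs i; rwa [hS] at this)
    hYX (by rw [hX]; exact hn) (by omega)
  -- the Bohr set in the short coset progression
  have hL₃eq : L₃ = fun i => L i / (4 * (d + 1) * (n + 1) * M) := by
    rw [hL₃, hL₂, hm]
    funext i
    rw [Nat.div_div_eq_div_mul]
  obtain ⟨Γ₁, hΓ1, hΓ1'⟩ := GP.coset H a L₃ (AS.mono_HP H a L L₃ (fun i => by
    have h1 := h32' i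
    have h2 := h21' i
    omega) hP) R hR
  obtain ⟨Γ₂, hΓ2⟩ : ∃ Γ₂ : Finset (ZMod N), Γ₂ = (Λ ×ˢ range (J + 1)).image
    fun p => ((R ^ p.2 : ℕ) : ZMod N) * p.1 := ⟨_, rfl⟩
  refine ⟨Γ₂ ∪ Γ₁, ?_, ?_⟩
  · have h1 : (Γ₂.card : ℝ) ≤ n * (J + 1) := by
      have : Γ₂.card ≤ n * (J + 1) := by
        rw [hΓ2]
        refine card_image_le.trans ?_
        rw [card_product, card_range]
        exact Nat.mul_le_mul_right _ hΛn
      exact_mod_cast this
    have h2 : ((Γ₂ ∪ Γ₁).card : ℝ) ≤ Γ₂.card + Γ₁.card := by exact_mod_cast card_union_le _ _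
    rw [GP.card_box, hL₃eq] at hΓ1
    linarith
  · intro y hy
    refine hF y fun γ hγ => ?_
    obtain ⟨ε, hε, hδ⟩ := hΛ γ hγ
    obtain ⟨δ, hδ'⟩ : ∃ δ : ZMod N, δ = γ - ∑ z ∈ Λ, (ε z : ZMod N) * z := ⟨_, rfl⟩
    rw [← hδ'] at hδ
    have hyL : y ∈ HP H a L₃ := by
      obtain ⟨h, hh, k, hk, he⟩ := hΓ1' y fun g hg => hy g (mem_union_right _ hg)
      rw [mem_HP]
      exact ⟨k, hk, by rw [he]; simpa using hh⟩
    have h1 : ‖ψ (δ * y) - 1‖ ≤ 1 / (16 * K) := by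
      have h2 := hINV N H d M a L L₂ L₃ hP hM1 (fun i => by
        have h1 := h32' i
        have h2 := h21' i
        omega) h32 δ (by rw [hS] at hδ; exact hδ) y hyL
      refine h2.trans ?_
      rw [div_le_div_iff₀ (by linarith) (by positivity)]
      nlinarith
    have h2 : ‖ψ ((∑ z ∈ Λ, (ε z : ZMod N) * z) * y) - 1‖ ≤ 1 / (8 * (2 * K)) := by
      refine bohr_small Λ R J hR2 (2 * K) (by linarith) ?_ y ?_ ε hε
      · refine le_trans ?_ hJ
        have h3 : (Λ.card : ℝ) ≤ n := by exact_mod_cast hΛn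
        have := Real.pi_pos
        calc 4 * Real.pi * (2 * K) * Λ.card ≤ 4 * Real.pi * (2 * K) * n := by gcongr
          _ = 8 * Real.pi * K * n := by ring
      · intro z hz i hi
        have h3 := hy (((R ^ i : ℕ) : ZMod N) * z) (mem_union_left _ (by
          rw [hΓ2, mem_image]
          exact ⟨(z, i), mem_product.2 ⟨hz, mem_range.2 hi⟩, rfl⟩))
        refine h3.trans ?_
        apply one_div_le_one_div_of_le (by positivity)
        linarith
    have h3 : γ * y = (∑ z ∈ Λ, (ε z : ZMod N) * z) * y + δ * y := by rw [hδ']; ring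
    rw [h3]
    refine (GP.norm_ψ_sub_one_add _ _).trans ?_
    calc ‖ψ ((∑ z ∈ Λ, (ε z : ZMod N) * z) * y) - 1‖ + ‖ψ (δ * y) - 1‖ ≤ 1 / (8 * (2 * K)) + 1 / (16 * K) :=
          add_le_add h2 h1
      _ = 1 / (8 * K) := by field_simp; ring

/-- (As `data`, for `S ⊆ A + A`.) The large set of almost periods in a translate of a proper coset progression -/
theorem data_gen (hFR : S_FR) (hCS : S_CS) : ∃ C₁ : ℝ, 1 ≤ C₁ ∧
    ∀ (N : ℕ) [NeZero N] (A S : Finset (ZMod N)) (K : ℝ), A.Nonempty → 1 ≤ K →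
    ((A + A).card : ℝ) ≤ K * A.card → S ⊆ A + A →
    ∃ (l : ℕ) (T₁ : Finset (ZMod N)) (H : AddSubgroup (ZMod N)) (d : ℕ) (a : Fin d → ZMod N) (Lb : Fin d → ℕ)
      (t : ZMod N), 1 ≤ l ∧ 16 * K ≤ 4 ^ l ∧ T₁.Nonempty ∧
      (∀ s ∈ T₁, ∀ s' ∈ T₁, ∀ y : ZMod N, |gn A S (y + s - s') - gn A S y| ≤ 1 / (16 * l)) ∧
      (d : ℝ) ≤ 300 * Real.log (2 * K) ∧ ProperH H a Lb ∧ (∀ x ∈ T₁, x - t ∈ HP H a Lb) ∧
      Real.log (4 * (HP H a Lb).card / T₁.card) ≤ C₁ * Real.log (2 * K) ^ 4 ∧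
      (A.card : ℝ) ≤ Real.exp (C₁ * Real.log (2 * K) ^ 2) * (HP H a Lb).card := by
  classical
  obtain ⟨CF, hCF, hFR⟩ := hFR
  obtain ⟨CA, hCA, hAP⟩ := ap_gen hCS
  refine ⟨32 + 8 * CF + 25 * CA, by linarith, ?_⟩
  intro N _ A S K hA hK hAA hSA
  obtain ⟨l, hl1, hl2, hl3⟩ := exists_l K hK
  obtain ⟨T₀, hTA, hT1, hT2⟩ := hAP N A S K l hA hK hAA hSA hl1
  obtain ⟨H, d, a, Lb, Tc, hd, hP, hX1, hTc, hcov⟩ := hFR N A K hA hK hAA
  obtain ⟨L, hL⟩ : ∃ L : ℝ, L = Real.log (2 * K) := ⟨_, rfl⟩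
  have hL2 : Real.log 2 ≤ L := by rw [hL]; exact Real.log_le_log (by norm_num) (by linarith)
  obtain ⟨hL0, hL41, hL42, hL43, h2L⟩ := pow_facts L hL2
  have hL4 : 0 < L ^ 4 := by positivity
  have hAc : (0 : ℝ) < A.card := by exact_mod_cast hA.card_pos
  have hT₀ : T₀.Nonempty := by
    rw [nonempty_iff_ne_empty]
    rintro rfl
    simp at hT1
    exact absurd hT1 (by simpa using hA.ne_empty)
  obtain ⟨X, hX⟩ : ∃ X, X = HP H a Lb := ⟨_, rfl⟩
  rw [← hX] at hX1 hcov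
  obtain ⟨t, ht, hpig⟩ := AS.pigeon T₀ Tc X (fun x hx => hcov x (hTA hx)) hT₀
  obtain ⟨T₁, hT₁⟩ : ∃ T₁, T₁ = T₀.filter fun x => x - t ∈ X := ⟨_, rfl⟩
  rw [← hT₁] at hpig
  have hT₁ne : T₁.Nonempty := by
    rw [← card_pos]
    rcases Nat.eq_zero_or_pos T₁.card with h | h
    · rw [h, mul_zero] at hpig
      have := hT₀.card_pos
      omega
    · exact h
  have hT₁c : (0 : ℝ) < T₁.card := by exact_mod_cast hT₁ne.card_pos
  have hcc := AS.cover_card A Tc X hcov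
  rw [← hL] at hl3 hT1 hd hX1 hTc
  obtain ⟨E, hE⟩ : ∃ E : ℝ, E = Real.exp (CF * L ^ 2) := ⟨_, rfl⟩
  rw [← hE] at hX1 hTc
  have hE0 : 0 < E := by rw [hE]; exact Real.exp_pos _
  have hlogE : Real.log E = CF * L ^ 2 := by rw [hE, Real.log_exp]
  have hpig' : (T₀.card : ℝ) ≤ E * T₁.card := by
    have h1 : (T₀.card : ℝ) ≤ Tc.card * T₁.card := by exact_mod_cast hpig
    exact h1.trans (mul_le_mul_of_nonneg_right hTc hT₁c.le)
  have hcc' : (A.card : ℝ) ≤ E * X.card := by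
    have h1 : (A.card : ℝ) ≤ Tc.card * X.card := by exact_mod_cast hcc
    exact h1.trans (mul_le_mul_of_nonneg_right hTc (Nat.cast_nonneg _))
  have hXc : (0 : ℝ) < X.card := by
    by_contra hcon
    have h1 : (X.card : ℝ) = 0 := le_antisymm (not_lt.1 hcon) (Nat.cast_nonneg _)
    rw [h1, mul_zero] at hcc'
    linarith
  have hlog4 : Real.log 4 ≤ 2 := by
    have h1 : Real.log 4 = 2 * Real.log 2 := by
      rw [show (4 : ℝ) = 2 ^ 2 by norm_num, Real.log_pow]; norm_num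
    have := Real.log_two_lt_d9
    linarith
  have hBle : Real.log (4 * X.card / T₁.card) ≤ Real.log 4 + 2 * CF * L ^ 2 + 25 * CA * L ^ 4 := by
    have h1 : (A.card : ℝ) ≤ Real.exp (25 * CA * L ^ 4) * (E * T₁.card) := by
      refine hT1.trans ?_
      have h2 : CA * (l : ℝ) ^ 2 * L ^ 2 ≤ 25 * CA * L ^ 4 := by
        calc CA * (l : ℝ) ^ 2 * L ^ 2 ≤ CA * (5 * L) ^ 2 * L ^ 2 := by gcongr
          _ = 25 * CA * L ^ 4 := by ring
      gcongr
    have h2 : 4 * (X.card : ℝ) / T₁.card ≤ 4 * (E * (Real.exp (25 * CA * L ^ 4) * E)) := by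
      rw [div_le_iff₀ hT₁c]
      calc 4 * (X.card : ℝ) ≤ 4 * (E * (Real.exp (25 * CA * L ^ 4) * (E * T₁.card))) := by
            gcongr
            exact hX1.trans (by gcongr)
        _ = _ := by ring
    refine (Real.log_le_log (by positivity) h2).trans ?_
    rw [Real.log_mul (by norm_num) (by positivity), Real.log_mul hE0.ne' (by positivity),
      Real.log_mul (Real.exp_pos _).ne' hE0.ne', Real.log_exp, hlogE]
    linarith
  refine ⟨l, T₁, H, d, a, Lb, t, hl1, hl2, hT₁ne, ?_, ?_, hP, ?_, ?_, ?_⟩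
  · intro s hs s' hs'
    rw [hT₁, mem_filter] at hs hs'
    exact hT2 s hs.1 s' hs'.1
  · rw [← hL]; exact hd
  · intro x hx
    rw [hT₁, mem_filter] at hx
    rw [← hX]
    exact hx.2
  · rw [← hX, ← hL]
    refine hBle.trans ?_
    have h3 : 2 * CF * L ^ 2 ≤ 2 * CF * (4 * L ^ 4) := by gcongr
    linarith
  · rw [← hX, ← hL]
    refine hcc'.trans ?_
    rw [hE]
    have h1 : CF * L ^ 2 ≤ (32 + 8 * CF + 25 * CA) * L ^ 2 := by
      gcongr
      linarith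
    gcongr

/-- (As `core2`.) The main bound with a free parameter `R`. -/
theorem core_gen (hFR : S_FR) (hCS : S_CS) (hVOL : S_VOL) (hINV : S_INV) (hLCH : S_LCH) :
    ∃ C : ℝ, 1 ≤ C ∧ ∀ (N : ℕ) [NeZero N] (A S : Finset (ZMod N)) (K : ℝ) (R : ℕ), A.Nonempty → 1 ≤ K →
    ((A + A).card : ℝ) ≤ K * A.card → S ⊆ A + A → 1 / 2 ≤ gn A S 0 → 300 * Real.log (2 * K) + 3 ≤ R →
    ∃ Γ : Finset (ZMod N), (Γ.card : ℝ) ≤
      C * (Real.log (N / A.card) / Real.log R + Real.log (2 * K) ^ 4 * (1 + Real.log (2 * K) / Real.log R)) ∧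
      ∀ y : ZMod N, (∀ g ∈ Γ, CB.nn (g * y) ≤ 1 / (8 * R)) → 1 / 4 ≤ gn A S y := by
  obtain ⟨C₁, hC₁, hdata⟩ := data_gen hFR hCS
  obtain ⟨C₂, hC₂, hnum⟩ := numbers C₁ hC₁
  refine ⟨5 + C₂ + 420016 + 20 * (C₁ + 300 * C₂), by linarith, ?_⟩
  intro N _ A S K R hA hK hAA hSA hS0 hR
  obtain ⟨l, T₁, H, d, a, Lb, t, hl1, hl2, hT₁, hAPP, hd, hP, hTX, hlog, hAX⟩ := hdata N A S K hA hK hAA hSA
  obtain ⟨n, M, J, hn1, hM1, hMnat, hpow, hnJ, hlogq⟩ := hnum K d R hK hd hR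
  have hL2 : Real.log 2 ≤ Real.log (2 * K) := Real.log_le_log (by norm_num) (by linarith)
  obtain ⟨hL0, hL41, hL42, hL43, h2L⟩ := pow_facts _ hL2
  obtain ⟨Γ, hΓ1, hΓ2⟩ := comb_gen hVOL hINV hLCH N T₁ K hK (fun y => 1 / 4 ≤ gn A S y) hT₁
    (fun y hy => fou_gen N A S T₁ K l hA hT₁ hK hAA hSA hS0 hl1 hl2 hAPP y hy) H d a Lb hP t hTX n M
    (by linarith) hM1 R J (by linarith) hpow
  refine ⟨Γ, ?_, hΓ2⟩
  obtain ⟨q, hq⟩ : ∃ q : ℕ, q = 4 * (d + 1) * (n + 1) * M := ⟨_, rfl⟩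
  rw [← hq] at hΓ1 hlogq
  have hq1 : 1 ≤ q := by rw [hq]; exact Nat.one_le_iff_ne_zero.2 (by positivity)
  obtain ⟨V₃, hV₃⟩ : ∃ V₃ : ℕ, V₃ = ∏ i, (2 * (Lb i / q) + 1) := ⟨_, rfl⟩
  rw [← hV₃] at hΓ1
  have hvolX := (hVOL N H d a Lb).2 hP
  obtain ⟨X, hX⟩ : ∃ X, X = HP H a Lb := ⟨_, rfl⟩
  rw [← hX] at hlog hAX hvolX
  obtain ⟨L, hL⟩ : ∃ L : ℝ, L = Real.log (2 * K) := ⟨_, rfl⟩
  rw [← hL] at hd hlog hAX hR hn1 hnJ hlogq hL2 hL0 hL41 hL42 hL43 h2L ⊢
  have hL4 : 0 < L ^ 4 := by positivity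
  have hAc : (0 : ℝ) < A.card := by exact_mod_cast hA.card_pos
  have hNpos : (0 : ℝ) < N := by exact_mod_cast NeZero.pos N
  have hV₃0 : (0 : ℝ) < V₃ := by
    have : 0 < V₃ := by rw [hV₃]; exact prod_pos fun i _ => by omega
    exact_mod_cast this
  have hHc : (0 : ℝ) < Nat.card H := by exact_mod_cast Nat.card_pos
  have hq1R : (1 : ℝ) ≤ q := by exact_mod_cast hq1
  obtain ⟨E, hE⟩ : ∃ E : ℝ, E = Real.exp (C₁ * L ^ 2) := ⟨_, rfl⟩
  rw [← hE] at hAX
  have hE0 : 0 < E := by rw [hE]; exact Real.exp_pos _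
  have hlogE : Real.log E = C₁ * L ^ 2 := by rw [hE, Real.log_exp]
  have hvol : (A.card : ℝ) ≤ E * ((Nat.card H : ℝ) * ((2 * (q : ℝ)) ^ d * V₃)) := by
    have h2 : (X.card : ℝ) ≤ (Nat.card H : ℝ) * ((2 * (q : ℝ)) ^ d * V₃) := by
      rw [hvolX]
      push_cast
      have h3 := AS.box_ratio Lb q hq1
      rw [← hV₃] at h3
      push_cast at h3
      gcongr
    exact hAX.trans (by gcongr)
  have hR3 : (3 : ℝ) ≤ R := by linarith
  have hR0 : (0 : ℝ) < R := by linarith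
  have hlogR : 1 ≤ Real.log R := by
    rw [Real.le_log_iff_exp_le hR0]
    have := Real.exp_one_lt_d9
    linarith
  have hlogR0 : 0 < Real.log R := by linarith
  have hlogvol : Real.log (N / (Nat.card H * V₃)) ≤ Real.log (N / A.card) + (C₁ + 300 * C₂) * L ^ 2 := by
    have h1 : (N : ℝ) / (Nat.card H * V₃) ≤ (N / A.card) * (E * (2 * (q : ℝ)) ^ d) := by
      rw [div_mul_eq_mul_div, div_le_div_iff₀ (by positivity) hAc]
      calc (N : ℝ) * A.card ≤ N * (E * ((Nat.card H : ℝ) * ((2 * (q : ℝ)) ^ d * V₃))) := by gcongr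
        _ = _ := by ring
    refine (Real.log_le_log (by positivity) h1).trans ?_
    rw [Real.log_mul (by positivity) (by positivity), Real.log_mul hE0.ne' (by positivity), hlogE, Real.log_pow]
    have h2 : (d : ℝ) * Real.log (2 * q) ≤ 300 * C₂ * L ^ 2 := by
      have h3 : 0 ≤ Real.log (2 * q) := Real.log_nonneg (by linarith)
      calc (d : ℝ) * Real.log (2 * q) ≤ (300 * L) * (C₂ * L) := by gcongr
        _ = 300 * C₂ * L ^ 2 := by ring
    linarith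
  have hLR : 0 ≤ L / Real.log R := by positivity
  have e2 : 175 * (d : ℝ) + 1 ≤ 420016 * L ^ 4 := by linarith
  have hCC : 0 ≤ C₁ + 300 * C₂ := by linarith
  have e3 : Real.log (N / (Nat.card H * V₃)) / Real.log R ≤
      Real.log (N / A.card) / Real.log R + 4 * (C₁ + 300 * C₂) * L ^ 4 := by
    have h1 : Real.log (N / (Nat.card H * V₃)) / Real.log R ≤
        (Real.log (N / A.card) + (C₁ + 300 * C₂) * L ^ 2) / Real.log R := by gcongr
    have h2 : (C₁ + 300 * C₂) * L ^ 2 / Real.log R ≤ (C₁ + 300 * C₂) * (4 * L ^ 4) := by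
      rw [div_le_iff₀ hlogR0]
      have h3 : (C₁ + 300 * C₂) * L ^ 2 ≤ (C₁ + 300 * C₂) * (4 * L ^ 4) := by gcongr
      have h4 : 0 ≤ (C₁ + 300 * C₂) * (4 * L ^ 4) := by positivity
      have h5 := mul_le_mul_of_nonneg_left hlogR h4
      linarith
    rw [add_div] at h1
    linarith
  have e4 : L ^ 4 ≤ L ^ 4 * (1 + L / Real.log R) := by
    have := mul_nonneg hL4.le hLR
    linarith
  have hx0 : 0 ≤ Real.log (N / A.card) / Real.log R := by
    apply div_nonneg _ hlogR0.le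
    apply Real.log_nonneg
    rw [le_div_iff₀ hAc, one_mul]
    have := card_le_univ A
    rw [ZMod.card] at this
    exact_mod_cast this
  obtain ⟨x', hx'⟩ : ∃ x' : ℝ, x' = Real.log (N / A.card) / Real.log R := ⟨_, rfl⟩
  obtain ⟨W, hW⟩ : ∃ W : ℝ, W = L ^ 4 * (1 + L / Real.log R) := ⟨_, rfl⟩
  rw [← hx'] at e3 hx0 ⊢
  rw [← hW] at hnJ e4 ⊢
  have e5 : (C₁ + 300 * C₂) * L ^ 4 ≤ (C₁ + 300 * C₂) * W := by gcongr
  have e6 : (420016 : ℝ) * L ^ 4 ≤ 420016 * W := by gcongr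
  have e7 : 0 ≤ (C₂ + 420016 + 20 * (C₁ + 300 * C₂)) * x' := by positivity
  have hW0 : 0 ≤ W := le_trans hL4.le e4
  calc (Γ.card : ℝ) ≤ n * (J + 1) + (175 * d + 1 +
      5 * (Real.log (N / (Nat.card H * V₃)) / Real.log R)) := hΓ1
    _ ≤ C₂ * W + (420016 * W + 5 * (x' + 4 * (C₁ + 300 * C₂) * L ^ 4)) := by
        have := e2.trans e6
        linarith
    _ ≤ (5 + C₂ + 420016 + 20 * (C₁ + 300 * C₂)) * (x' + W) := by
        have h8 : (5 + C₂ + 420016 + 20 * (C₁ + 300 * C₂)) * (x' + W) =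
          5 * x' + (C₂ + 420016 + 20 * (C₁ + 300 * C₂)) * x' + 5 * W + C₂ * W + 420016 * W +
            20 * ((C₁ + 300 * C₂) * W) := by ring
        rw [h8]
        linarith

end Run7.h671.RS
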