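import Pool.Agent.Run7.h671.RS.PopS
import Pool.Agent.H217R3.AK.Bsg

/-!
# Popular elements of `2S - 2S` for sets of large additive energy, and random subsets of these sets

The step from small doubling to large energy (Balog-Szemeredi-Gowers) is the one of `Run7.h322.LE`.
-/

set_option autoImplicit false

namespace Run7.h671.RS

open Finset
open scoped Pointwise

section Energy

variable {G : Type*} [AddCommGroup G] [DecidableEq G]

/-- The additive energy is at most `|B|³`. -/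
theorem energy_self_le (B : Finset G) : B.addEnergy B ≤ B.card ^ 3 := by
  have h : B.addEnergy B ≤ ((B ×ˢ B) ×ˢ B).card := by
    unfold Finset.addEnergy
    apply card_le_card_of_injOn (fun x : (G × G) × G × G => ((x.1.1, x.1.2), x.2.1))
    · rintro ⟨⟨a, a'⟩, b, b'⟩ h
      simp only [mem_coe, mem_filter, mem_product] at h ⊢
      exact ⟨h.1.1, h.1.2.1⟩
    · rintro ⟨⟨a, a'⟩, b, b'⟩ h ⟨⟨c, c'⟩, d, d'⟩ h' he
      simp only [mem_coe, mem_filter, mem_product] at h h'
      simp only [Prod.mk.injEq] at he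
      obtain ⟨⟨rfl, rfl⟩, rfl⟩ := he
      have h1 := h.2
      have h2 := h'.2
      have : b' = d' := by
        have h3 : a' + b' = a' + d' := by rw [← h1, ← h2]
        exact add_left_cancel h3
      rw [this]
  rw [card_product, card_product] at h
  calc B.addEnergy B ≤ B.card * B.card * B.card := h
    _ = _ := by ring

/-- A large piece of small doubling. -/
theorem piece (A : Finset G) (hA : A.Nonempty) (K : ℝ) (hK : 1 ≤ K)
    (hE : (A.card : ℝ) ^ 3 ≤ K * (A.addEnergy A : ℝ)) :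
    ∃ B ⊆ A, B.Nonempty ∧ (A.card : ℝ) ≤ 8 * K * B.card ∧
      ((B + B).card : ℝ) ≤ 2 ^ 44 * K ^ 20 * B.card := by
  obtain ⟨B, hBA, hB, h1, h2⟩ := Pool.Agent.H217R3.AK.bsg A hA K (by positivity) hE
  refine ⟨B, hBA, hB, h1, ?_⟩
  have hb : (0 : ℝ) < B.card := by exact_mod_cast hB.card_pos
  have h3 : ((B + B).card : ℝ) * B.card ≤ ((B - B).card : ℝ) * ((B - B).card : ℝ) := by
    exact_mod_cast Finset.ruzsa_triangle_inequality_add_sub_sub B B B
  have h5 : ((B + B).card : ℝ) * B.card ≤ (2 ^ 44 * K ^ 20 * B.card) * B.card := by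
    calc ((B + B).card : ℝ) * B.card ≤ ((B - B).card : ℝ) * ((B - B).card : ℝ) := h3
      _ ≤ (2 ^ 22 * K ^ 10 * B.card) * (2 ^ 22 * K ^ 10 * B.card) :=
          mul_le_mul h2 h2 (by positivity) (by positivity)
      _ = _ := by ring
  exact le_of_mul_le_mul_right h5 hb

end Energy

variable {N : ℕ}

lemma ind_mono {B S : Finset (ZMod N)} (h : B ⊆ S) (x : ZMod N) : ind B x ≤ ind S x := by
  unfold ind
  by_cases h1 : x ∈ B
  · rw [if_pos h1, if_pos (h h1)]
  · rw [if_neg h1]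
    split_ifs <;> norm_num

lemma rr_mono [NeZero N] {B S : Finset (ZMod N)} (h : B ⊆ S) (x : ZMod N) :
    rr (ind B) (ind B) (ind B) (ind B) x ≤ rr (ind S) (ind S) (ind S) (ind S) x := by
  unfold rr
  refine sum_le_sum fun a _ => sum_le_sum fun b _ => sum_le_sum fun c _ => ?_
  have h1 := ind_mono h a
  have h2 := ind_mono h b
  have h3 := ind_mono h c
  have h4 := ind_mono h (a + b - c - x)
  have g1 := ind_nonneg B a
  have g2 := ind_nonneg B b
  have g3 := ind_nonneg B c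
  have g4 := ind_nonneg B (a + b - c - x)
  have g5 := ind_nonneg S a
  have g6 := ind_nonneg S b
  have g7 := ind_nonneg S c
  gcongr

/-- A Bohr set consisting of popular elements of `2S - 2S`, for sets of large energy. -/
theorem popular_bohr_energy : ∃ C : ℝ, 1 ≤ C ∧ ∀ (N : ℕ) [NeZero N] (S : Finset (ZMod N)) (K : ℝ) (R : ℕ),
    S.Nonempty → 1 ≤ K → (S.card : ℝ) ^ 3 ≤ K * (S.addEnergy S : ℝ) → 13500 * Real.log (2 * K) + 3 ≤ R →
    ∃ Γ : Finset (ZMod N), (Γ.card : ℝ) ≤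
      C * (Real.log (N / S.card) / Real.log R + Real.log (2 * K) ^ 4 * (1 + Real.log (2 * K) / Real.log R)) ∧
      ∀ y ∈ bohr Γ (1 / (8 * R)), 1 / (2 ^ 56 * K ^ 23) * (S.card : ℝ) ^ 3 ≤
        rr (ind S) (ind S) (ind S) (ind S) y := by
  obtain ⟨C, hC, h⟩ := popular_bohr
  refine ⟨2 * 45 ^ 5 * C, by linarith, fun N _ S K R hS hK hE hR => ?_⟩
  obtain ⟨B, hBS, hB, hB1, hB2⟩ := piece S hS K hK hE
  have hNpos : (0 : ℝ) < N := by exact_mod_cast NeZero.pos N
  have hbc : (0 : ℝ) < B.card := by exact_mod_cast hB.card_pos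
  have hSc : (0 : ℝ) < S.card := by exact_mod_cast hS.card_pos
  have hlog2 := Real.log_two_gt_d9
  have hlK0 : 0 ≤ Real.log K := Real.log_nonneg hK
  have hL : Real.log (2 * K) = Real.log 2 + Real.log K := Real.log_mul (by norm_num) (by linarith)
  obtain ⟨L, hLdef⟩ : ∃ L : ℝ, L = Real.log (2 * K) := ⟨_, rfl⟩
  rw [← hLdef] at hL hR ⊢
  have hL0 : 69 / 100 ≤ L := by linarith
  have hKB : Real.log (2 * (2 ^ 44 * K ^ 20)) ≤ 45 * L := by
    have e : 2 * (2 ^ 44 * K ^ 20) = 2 ^ 45 * K ^ 20 := by ring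
    rw [e, Real.log_mul (by positivity) (by positivity), Real.log_pow, Real.log_pow]
    push_cast
    linarith
  have hKB0 : 0 ≤ Real.log (2 * (2 ^ 44 * K ^ 20)) := by
    apply Real.log_nonneg
    have : (1 : ℝ) ≤ K ^ 20 := one_le_pow₀ hK
    linarith
  have hK20 : (1 : ℝ) ≤ K ^ 20 := one_le_pow₀ hK
  obtain ⟨Γ, h1, h2⟩ := h N B (2 ^ 44 * K ^ 20) R hB (by linarith) hB2 (by linarith)
  have hlR : 0 < Real.log R := Real.log_pos (by linarith)
  refine ⟨Γ, ?_, fun y hy => ?_⟩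
  · have hx : Real.log (N / B.card) ≤ Real.log (N / S.card) + 3 * L := by
      have h8 : (N : ℝ) / B.card ≤ (N / S.card) * (8 * K) := by
        rw [div_mul_eq_mul_div, div_le_div_iff₀ hbc hSc]
        calc (N : ℝ) * S.card ≤ N * (8 * K * B.card) := by gcongr
          _ = _ := by ring
      refine (Real.log_le_log (by positivity) h8).trans ?_
      rw [Real.log_mul (by positivity) (by positivity), show (8 : ℝ) = 2 ^ 3 by norm_num,
        Real.log_mul (by positivity) (by positivity), Real.log_pow]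
      push_cast
      linarith
    have hSN : (S.card : ℝ) ≤ N := by
      have := card_le_univ S
      rw [ZMod.card] at this
      exact_mod_cast this
    have hx0 : 0 ≤ Real.log (N / S.card) := by
      apply Real.log_nonneg
      rw [le_div_iff₀ hSc]
      linarith
    obtain ⟨u, hu⟩ : ∃ u : ℝ, u = 1 / Real.log R := ⟨_, rfl⟩
    have hu0 : 0 < u := by rw [hu]; positivity
    have e1 : Real.log (N / B.card) / Real.log R ≤ Real.log (N / S.card) / Real.log R + 3 * (L * u) := by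
      rw [hu]
      calc Real.log (N / B.card) / Real.log R ≤ (Real.log (N / S.card) + 3 * L) / Real.log R := by gcongr
        _ = _ := by ring
    have e2 : Real.log (2 * (2 ^ 44 * K ^ 20)) ^ 4 * (1 + Real.log (2 * (2 ^ 44 * K ^ 20)) / Real.log R) ≤
        (45 * L) ^ 4 * (1 + (45 * L) / Real.log R) := by gcongr
    have e3 : (45 * L) ^ 4 * (1 + (45 * L) / Real.log R) ≤ 45 ^ 5 * (L ^ 4 * (1 + L / Real.log R)) := by
      have q0 : 0 ≤ L ^ 4 := by positivity
      have q1 : (45 * L) ^ 4 * (1 + (45 * L) / Real.log R) =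
          45 ^ 4 * L ^ 4 + 45 ^ 5 * (L ^ 4 * (L / Real.log R)) := by ring
      have q2 : 45 ^ 5 * (L ^ 4 * (1 + L / Real.log R)) =
          45 ^ 5 * L ^ 4 + 45 ^ 5 * (L ^ 4 * (L / Real.log R)) := by ring
      rw [q1, q2]
      nlinarith
    have e4 : 3 * (L * u) ≤ 45 * (L ^ 4 * (1 + L / Real.log R)) := by
      have q3 : (69 / 100 : ℝ) ^ 4 ≤ L ^ 4 := pow_le_pow_left₀ (by norm_num) hL0 4
      have q4 : L * u = L / Real.log R := by rw [hu]; ring
      rw [q4]
      have q5 : 0 ≤ L / Real.log R := by positivity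
      have q6 : (69 / 100 : ℝ) ^ 4 * (L / Real.log R) ≤ L ^ 4 * (L / Real.log R) := by gcongr
      have q7 : 0 ≤ L ^ 4 := by positivity
      norm_num at q6
      nlinarith
    have e5 : 0 ≤ Real.log (N / S.card) / Real.log R := by positivity
    have e6 : 0 ≤ L ^ 4 * (1 + L / Real.log R) := by
      have : 0 ≤ L / Real.log R := by positivity
      positivity
    refine h1.trans ?_
    calc C * (Real.log (N / B.card) / Real.log R + Real.log (2 * (2 ^ 44 * K ^ 20)) ^ 4 *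
          (1 + Real.log (2 * (2 ^ 44 * K ^ 20)) / Real.log R))
        ≤ C * ((Real.log (N / S.card) / Real.log R + 3 * (L * u)) + 45 ^ 5 * (L ^ 4 * (1 + L / Real.log R))) := by
          apply mul_le_mul_of_nonneg_left _ (by linarith)
          linarith
      _ ≤ C * (2 * 45 ^ 5 * (Real.log (N / S.card) / Real.log R + L ^ 4 * (1 + L / Real.log R))) := by
          apply mul_le_mul_of_nonneg_left _ (by linarith)
          linarith
      _ = _ := by ring
  · refine le_trans ?_ ((h2 y hy).trans (rr_mono hBS y))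
    have hK23 : 0 < 2 ^ 56 * K ^ 23 := by positivity
    rw [div_mul_eq_mul_div, one_mul, div_mul_eq_mul_div, one_mul, div_le_div_iff₀ hK23 (by positivity)]
    calc (S.card : ℝ) ^ 3 * (8 * (2 ^ 44 * K ^ 20)) ≤ (8 * K * B.card) ^ 3 * (8 * (2 ^ 44 * K ^ 20)) := by gcongr
      _ = (B.card : ℝ) ^ 3 * (2 ^ 56 * K ^ 23) := by ring

/-- The conclusion of Q1 if the popular elements of `2S - 2S` are contained in `2A - 2A`. -/
theorem en_concl (D : ℝ) (hD : 1 ≤ D) : ∃ C : ℝ, 1 ≤ C ∧ ∀ (N : ℕ) [NeZero N] (S A : Finset (ZMod N)) (K : ℝ),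
    S.Nonempty → 1 ≤ K → (S.card : ℝ) ^ 3 ≤ K * (S.addEnergy S : ℝ) → A.Nonempty →
    (A.card : ℝ) / (N : ℝ) ≤ 1 / 2 →
    Real.log ((N : ℝ) / (S.card : ℝ)) ≤
      2 * D * (Real.log ((N : ℝ) / (A.card : ℝ)) * Real.log (2 + Real.log ((N : ℝ) / (A.card : ℝ)))) →
    Real.log (2 * K) ^ 5 ≤
      D * (Real.log ((N : ℝ) / (A.card : ℝ)) * Real.log (2 + Real.log ((N : ℝ) / (A.card : ℝ)))) →
    (∀ x, 1 / (2 ^ 56 * K ^ 23) * (S.card : ℝ) ^ 3 ≤ rr (ind S) (ind S) (ind S) (ind S) x →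
      x ∈ twoAMinusTwoA A) →
    Q1For C A := by
  obtain ⟨C₀, hC₀, h⟩ := popular_bohr_energy
  refine ⟨C₀ * 12501 * (2 + 3 * D) + (72 + 864000 * D), by nlinarith, ?_⟩
  intro N _ S A K hSne hK hSS hA hα hlS hL5 hpop
  have hNpos : (0 : ℝ) < N := by exact_mod_cast NeZero.pos N
  have hAc : (0 : ℝ) < A.card := by exact_mod_cast hA.card_pos
  have hSc : (0 : ℝ) < S.card := by exact_mod_cast hSne.card_pos
  obtain ⟨h5, h6⟩ := ell_facts (NeZero.pos N) A hA hα
  obtain ⟨l, hl⟩ : ∃ l : ℝ, l = Real.log ((N : ℝ) / (A.card : ℝ)) := ⟨_, rfl⟩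
  obtain ⟨L, hL⟩ : ∃ L : ℝ, L = Real.log (2 * K) := ⟨_, rfl⟩
  rw [← hl] at h5 h6 hL5 hlS
  rw [← hL] at hL5
  have hlog2 := Real.log_two_gt_d9
  have hL2 : Real.log 2 ≤ L := by rw [hL]; exact Real.log_le_log (by norm_num) (by linarith)
  have hl0 : 0 < l := by linarith
  have hL0 : 0 < L := by linarith
  have hLl : L ≤ 8 * D * l := L_le D l L hD (by linarith) (by linarith) hL5
  obtain ⟨R, hR⟩ : ∃ R : ℕ, R = ⌈l⌉₊ + ⌈13500 * L⌉₊ + 3 := ⟨_, rfl⟩
  have h1 := Nat.le_ceil l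
  have h2 := (Nat.ceil_lt_add_one hl0.le).le
  have h3 := Nat.le_ceil (13500 * L)
  have h4 := (Nat.ceil_lt_add_one (by positivity : 0 ≤ 13500 * L)).le
  have hRR : (R : ℝ) = ⌈l⌉₊ + ⌈13500 * L⌉₊ + 3 := by rw [hR]; push_cast; ring
  obtain ⟨Γ, hΓ1, hΓ2⟩ := h N S K R hSne hK hSS (by rw [← hL, hRR]; linarith)
  rw [← hL] at hΓ1
  have hRl : 2 + l ≤ (R : ℝ) := by rw [hRR]; linarith
  have hRu : (R : ℝ) ≤ (9 + 108000 * D) * l := by
    rw [hRR]
    have : 13500 * L ≤ 108000 * D * l := by linarith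
    linarith
  have hR0 : (0 : ℝ) < R := by linarith
  have hlogl : 0 < Real.log (2 + l) := by linarith
  have hlR : Real.log (2 + l) ≤ Real.log R := Real.log_le_log (by linarith) hRl
  refine ⟨Γ, 1 / (8 * R), by positivity, ?_, ?_, fun y hy => hpop y (hΓ2 y hy)⟩
  · rw [← hl]
    have e1 : Real.log (N / S.card) / Real.log R ≤ 2 * D * l := by
      rw [div_le_iff₀ (by linarith)]
      calc Real.log (N / S.card) ≤ 2 * D * (l * Real.log (2 + l)) := hlS
        _ ≤ 2 * D * (l * Real.log R) := by gcongr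
        _ = _ := by ring
    have e2 : L / Real.log R ≤ L / Real.log (2 + l) := div_le_div_of_nonneg_left hL0.le hlogl hlR
    have e3 := Pool.Agent.N142.CD.simplify l L h5 hL0
    have e4 : (l + L ^ 5) / Real.log (2 + l) ≤ (2 + D) * l := by
      rw [div_le_iff₀ hlogl]
      nlinarith
    calc (Γ.card : ℝ) ≤ C₀ * (Real.log (N / S.card) / Real.log R + L ^ 4 * (1 + L / Real.log R)) := hΓ1
      _ ≤ C₀ * (2 * D * l + L ^ 4 * (1 + L / Real.log (2 + l))) := by gcongr
      _ ≤ C₀ * (2 * D * l + 12501 * ((l + L ^ 5) / Real.log (2 + l))) := by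
          have e5 : 0 ≤ l / Real.log (2 + l) := by positivity
          apply mul_le_mul_of_nonneg_left _ (by linarith)
          linarith
      _ ≤ C₀ * (2 * D * l + 12501 * ((2 + D) * l)) := by gcongr
      _ ≤ (C₀ * 12501 * (2 + 3 * D) + (72 + 864000 * D)) * l := by
          have e6 : 0 ≤ (72 + 864000 * D) * l := by positivity
          have e7 : 0 ≤ C₀ * (D * l) := by positivity
          linarith
  · rw [← hl, div_div]
    apply one_div_le_one_div_of_le (by positivity)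
    have : 0 ≤ C₀ * 12501 * (2 + 3 * D) * l := by positivity
    linarith

/-- **Random subsets of sets of large energy.** -/
theorem en_random (D : ℝ) (hD : 1 ≤ D) : ∃ C₁ : ℝ, 1 ≤ C₁ ∧ ∀ (N : ℕ) [NeZero N] (S : Finset (ZMod N)) (K : ℝ),
    S.Nonempty → 1 ≤ K → (S.card : ℝ) ^ 3 ≤ K * (S.addEnergy S : ℝ) →
    ∀ δ : ℝ, 0 < δ → δ ≤ 1 → ∀ C : ℝ, C₁ ≤ C →
    ∀ (Bad : Finset (ZMod N) → Prop) [DecidablePred Bad],
    (∀ A, Bad A → A.Nonempty ∧ (A.card : ℝ) / (N : ℝ) ≤ 1 / 2 ∧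
      Real.log (2 * K) ^ 5 ≤
        D * (Real.log ((N : ℝ) / (A.card : ℝ)) * Real.log (2 + Real.log ((N : ℝ) / (A.card : ℝ)))) ∧
      ¬ Q1For C A) →
    ∑ A ∈ S.powerset with Bad A, wt δ S A ≤ (N : ℝ) ^ (-(1 / 8 : ℝ)) := by
  obtain ⟨C₁, hC₁, h⟩ := en_concl D hD
  refine ⟨C₁ + (370 * (36 + 7 * (448 * D)) + 26), by linarith, ?_⟩
  intro N _ S K hS hK hSS δ hδ hδ1 C hC Bad _ hBad
  have hlog2 := Real.log_two_gt_d9
  have hK23 : (1 : ℝ) ≤ K ^ 23 := one_le_pow₀ hK
  have hρ0 : 0 < 1 / (2 ^ 56 * K ^ 23) := by positivity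
  have hρ1 : 1 / (2 ^ 56 * K ^ 23) ≤ 1 := by
    rw [div_le_one (by positivity)]
    linarith
  have mono : ∀ A : Finset (ZMod N), A.Nonempty → (A.card : ℝ) / (N : ℝ) ≤ 1 / 2 → Q1For C₁ A → Q1For C A := by
    intro A hA hα hq
    obtain ⟨Γ, ε, g1, g2, g3, g4⟩ := hq
    obtain ⟨h5, h6⟩ := ell_facts (NeZero.pos N) A hA hα
    have hl0 : 0 < Real.log ((N : ℝ) / (A.card : ℝ)) := by linarith
    refine ⟨Γ, ε, g1, g2.trans ?_, le_trans ?_ g3, g4⟩
    · gcongr
      linarith
    · apply div_le_div_of_nonneg_right _ hl0.le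
      apply one_div_le_one_div_of_le (by positivity)
      linarith
  refine prob_bound S hS δ hδ hδ1 (1 / (2 ^ 56 * K ^ 23)) hρ0 hρ1 (448 * D) Bad ?_ ?_ ?_
  · intro A _ hA
    obtain ⟨b1, b2, b3, b4⟩ := hBad A hA
    refine ⟨b1, b2, ?_⟩
    obtain ⟨h5, h6⟩ := ell_facts (NeZero.pos N) A b1 b2
    unfold ell
    obtain ⟨l, hl⟩ : ∃ l : ℝ, l = Real.log ((N : ℝ) / (A.card : ℝ)) := ⟨_, rfl⟩
    rw [← hl] at h5 h6 b3 ⊢
    have hL2 : Real.log 2 ≤ Real.log (2 * K) := Real.log_le_log (by norm_num) (by linarith)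
    have hLl := L_le D l (Real.log (2 * K)) hD (by linarith) (by linarith) b3
    have hLK : Real.log (2 * K) = Real.log 2 + Real.log K := Real.log_mul (by norm_num) (by linarith)
    have hlK0 : 0 ≤ Real.log K := Real.log_nonneg hK
    rw [one_div_one_div, Real.log_mul (by positivity) (by positivity), Real.log_pow, Real.log_pow]
    push_cast
    linarith
  · intro A hAS hA
    obtain ⟨b1, b2, b3, b4⟩ := hBad A hA
    by_contra hcon
    push Not at hcon
    apply b4
    refine mono A b1 b2 (h N S A K hS hK hSS b1 b2 ?_ b3 fun x hx => ?_)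
    · obtain ⟨h5, h6⟩ := ell_facts (NeZero.pos N) A b1 b2
      have hNpos : (0 : ℝ) < N := by exact_mod_cast NeZero.pos N
      have hAc : (0 : ℝ) < A.card := by exact_mod_cast b1.card_pos
      have hSc : (0 : ℝ) < S.card := by exact_mod_cast hS.card_pos
      have hAS' : (A.card : ℝ) ≤ S.card := by exact_mod_cast card_le_card hAS
      have hlS : Real.log (N / S.card) ≤ Real.log ((N : ℝ) / (A.card : ℝ)) := by
        apply Real.log_le_log (by positivity)
        exact div_le_div_of_nonneg_left hNpos.le hAc hAS'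
      obtain ⟨l, hl⟩ : ∃ l : ℝ, l = Real.log ((N : ℝ) / (A.card : ℝ)) := ⟨_, rfl⟩
      rw [← hl] at h5 h6 hlS ⊢
      have hl0 : 0 < l := by linarith
      have q3 : l ≤ 2 * (l * Real.log (2 + l)) := by nlinarith
      have q4 : 0 ≤ l * Real.log (2 + l) := by
        have : 0 ≤ Real.log (2 + l) := by linarith
        positivity
      nlinarith
    · exact hcon x hx
  · intro A _ hA
    obtain ⟨b1, b2, b3, b4⟩ := hBad A hA
    by_contra hcon
    push Not at hcon
    apply b4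
    unfold ell at hcon
    exact of_sparse (36 + 7 * (448 * D)) (by positivity) (NeZero.pos N) A b1 b2 hcon C (by linarith)

end Run7.h671.RS
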