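import Pool.Agent.Run7.h671.RS.Ran

/-!
# The probability of the exceptional subsets

`prob_bound`: let `Bad` be a property of subsets `A` of `S ⊆ ℤ/N` such that for every bad `A` some element with at
least `ρ |S|³` representations in `2S - 2S` is not in `2A - 2A`, and `log N > (36 + 7 B) log (N/|A|)`, where
`log (1/ρ) ≤ B log (N/|A|)`. Then a random subset of `S` is bad with probability at most `N^(-1/8)`.
-/

set_option autoImplicit false

namespace Run7.h671.RS

open Finset

variable {N : ℕ} [NeZero N]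

/-- `log (1/α)` -/
noncomputable def ell (A : Finset (ZMod N)) : ℝ := Real.log ((N : ℝ) / (A.card : ℝ))

theorem prob_bound (S : Finset (ZMod N)) (hS : S.Nonempty) (δ : ℝ) (hδ : 0 < δ) (hδ1 : δ ≤ 1)
    (ρ : ℝ) (hρ : 0 < ρ) (hρ1 : ρ ≤ 1) (B : ℝ) (Bad : Finset (ZMod N) → Prop) [DecidablePred Bad]
    (h1 : ∀ A ⊆ S, Bad A → A.Nonempty ∧ (A.card : ℝ) / N ≤ 1 / 2 ∧ Real.log (1 / ρ) ≤ B * ell A)
    (h2 : ∀ A ⊆ S, Bad A → ∃ x, ρ * (S.card : ℝ) ^ 3 ≤ rr (ind S) (ind S) (ind S) (ind S) x ∧
      ¬ ∃ a₁ ∈ A, ∃ a₂ ∈ A, ∃ a₃ ∈ A, ∃ a₄ ∈ A, x = a₁ + a₂ - a₃ - a₄)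
    (h3 : ∀ A ⊆ S, Bad A → (36 + 7 * B) * ell A < Real.log N) :
    ∑ A ∈ S.powerset with Bad A, wt δ S A ≤ (N : ℝ) ^ (-(1 / 8 : ℝ)) := by
  have hN : (0 : ℝ) < N := by exact_mod_cast NeZero.pos N
  have hn : (0 : ℝ) < S.card := by exact_mod_cast hS.card_pos
  have hnN : (S.card : ℝ) ≤ N := by
    have := card_le_univ S
    rw [ZMod.card] at this
    exact_mod_cast this
  obtain ⟨P, hP⟩ : ∃ P : ℝ, P = (N : ℝ) ^ (1 / 8 : ℝ) := ⟨_, rfl⟩
  have hP0 : 0 < P := by rw [hP]; positivity
  have hPinv : (N : ℝ) ^ (-(1 / 8 : ℝ)) = 1 / P := by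
    rw [hP, Real.rpow_neg hN.le]
    exact (one_div _).symm
  have hP8 : P ^ 8 = N := by
    rw [hP, ← Real.rpow_natCast, ← Real.rpow_mul hN.le]
    norm_num
  have hN1 : (1 : ℝ) ≤ N := by exact_mod_cast NeZero.one_le (n := N)
  have hP1 : 1 ≤ P := by rw [hP]; exact Real.one_le_rpow hN1 (by norm_num)
  rw [hPinv]
  by_cases hcase : 1 ≤ δ * S.card ∧ 917504 * P ≤ ρ ^ 4 * (δ ^ 2 * S.card)
  · -- many elements
    obtain ⟨hδn, hbig⟩ := hcase
    obtain ⟨T, hT⟩ : ∃ T : ℝ, T = (ρ / 16) ^ 4 * (δ ^ 4 * (S.card : ℝ) ^ 3) := ⟨_, rfl⟩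
    have hT0 : 0 < T := by rw [hT]; positivity
    have hm := markov hδ.le hδ1 S (fun A => En (fun x => ind A x - δ * ind S x)) (fun A => En_nonneg _) T hT0
      Bad (fun A hAS hA => by
        by_contra hlt
        push Not at hlt
        obtain ⟨x, hx1, hx2⟩ := h2 A hAS hA
        exact hx2 (popular S A δ (ρ / 16) ρ hδ hS (by positivity) (by linarith) (by linarith)
          (by rw [← hT]; exact hlt.le) x hx1))
    refine hm.trans ?_
    have hE := Ex_En_le hδ.le hδ1 S
    rw [div_le_div_iff₀ hT0 hP0]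
    have h14 : 12 * δ ^ 2 * (S.card : ℝ) ^ 2 + 2 * δ * S.card ≤ 14 * (δ * S.card) ^ 2 := by nlinarith
    have hE' : Ex δ S (fun A => En (fun x => ind A x - δ * ind S x)) ≤ 14 * (δ * S.card) ^ 2 := hE.trans h14
    calc Ex δ S (fun A => En (fun x => ind A x - δ * ind S x)) * P ≤ 14 * (δ * S.card) ^ 2 * P :=
          mul_le_mul_of_nonneg_right hE' hP0.le
      _ = (917504 * P) * (δ * S.card) ^ 2 / 65536 := by ring
      _ ≤ (ρ ^ 4 * (δ ^ 2 * S.card)) * (δ * S.card) ^ 2 / 65536 := by gcongr
      _ = 1 * T := by rw [hT]; ring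
  · -- few elements: every bad set is much larger than expected
    have hsmall : ρ ^ 4 * (δ ^ 2 * S.card) < 917504 * P := by
      by_contra hcon
      push Not at hcon
      apply hcase
      refine ⟨?_, hcon⟩
      by_contra hlt
      push Not at hlt
      have h4 : ρ ^ 4 ≤ 1 := pow_le_one₀ hρ.le hρ1
      have h5 : δ ^ 2 * S.card ≤ 1 := by
        have : δ ^ 2 * S.card = δ * (δ * S.card) := by ring
        rw [this]
        nlinarith
      have h6 : ρ ^ 4 * (δ ^ 2 * S.card) ≤ 1 * 1 :=
        mul_le_mul h4 h5 (by positivity) (by norm_num)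
      linarith
    have hT0 : 0 < P * (δ * S.card) := by positivity
    have hm := markov hδ.le hδ1 S (fun A => (A.card : ℝ)) (fun A => Nat.cast_nonneg _) (P * (δ * S.card)) hT0
      Bad (fun A hAS hA => by
        by_contra hlt
        push Not at hlt
        obtain ⟨hAne, hAα, hAρ⟩ := h1 A hAS hA
        have h3' := h3 A hAS hA
        have hAc : (0 : ℝ) < A.card := by exact_mod_cast hAne.card_pos
        obtain ⟨l, hl⟩ : ∃ l : ℝ, l = ell A := ⟨_, rfl⟩
        rw [← hl] at hAρ h3'
        have hNA : 2 ≤ (N : ℝ) / A.card := by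
          rw [div_le_iff₀ hN] at hAα
          rw [le_div_iff₀ hAc]
          linarith
        have hl2 : Real.log 2 ≤ l := by rw [hl]; exact Real.log_le_log (by norm_num) hNA
        have hlog2 := Real.log_two_gt_d9
        -- `ρ⁴ |A|² < 917504 P³ N`
        have h7 : ρ ^ 4 * (A.card : ℝ) ^ 2 < 917504 * P ^ 3 * N := by
          have h8 : (A.card : ℝ) ^ 2 ≤ (P * (δ * S.card)) ^ 2 := pow_le_pow_left₀ hAc.le hlt.le 2
          calc ρ ^ 4 * (A.card : ℝ) ^ 2 ≤ ρ ^ 4 * (P * (δ * S.card)) ^ 2 := by gcongr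
            _ = (ρ ^ 4 * (δ ^ 2 * S.card)) * (P ^ 2 * S.card) := by ring
            _ < (917504 * P) * (P ^ 2 * S.card) := by
                apply mul_lt_mul_of_pos_right hsmall
                positivity
            _ ≤ (917504 * P) * (P ^ 2 * N) := by gcongr
            _ = _ := by ring
        have h9 := Real.log_lt_log (by positivity) h7
        rw [Real.log_mul (by positivity) (by positivity), Real.log_mul (by positivity) (by positivity),
          Real.log_mul (by norm_num) (by positivity), Real.log_pow, Real.log_pow, Real.log_pow] at h9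
        have h10 : Real.log (1 / ρ) = - Real.log ρ := by rw [one_div, Real.log_inv]
        have h11 : l = Real.log N - Real.log A.card := by
          rw [hl]
          exact Real.log_div hN.ne' hAc.ne'
        have h12 : Real.log P = (1 / 8) * Real.log N := by
          rw [hP, Real.log_rpow hN]
        have h13 : Real.log 917504 ≤ 20 * Real.log 2 := by
          rw [← Real.log_rpow (by norm_num : (0 : ℝ) < 2)]
          apply Real.log_le_log (by norm_num)
          norm_num
        have hBl : 0 ≤ B * l := by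
          refine le_trans (Real.log_nonneg ?_) hAρ
          rw [le_div_iff₀ hρ]
          linarith
        rw [h10] at hAρ
        push_cast at h9
        rw [h12] at h9
        have h14 : Real.log A.card = Real.log N - l := by linarith
        rw [h14] at h9
        have h15 : (36 + 7 * B) * l = 36 * l + 7 * (B * l) := by ring
        rw [h15] at h3'
        linarith)
    refine hm.trans ?_
    rw [Ex_card]
    rw [div_le_div_iff₀ hT0 hP0]
    linarith

end Run7.h671.RS
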