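import Pool.Agent.TH858.GP.Coset
import Pool.Agent.Run7.h671.RS.Prob

/-!
# Random subsets of translates of proper coset progressions

The definitions, `part_one` and `properProg` are those of the starting file `MP_169871_nt.ProperProgressions`.
-/

set_option autoImplicit false

namespace Run7.h671.RS

open Pool.Agent.TH858

/-- The Bohr set `B(Γ, ε) = {x ∈ ℤ/N : ‖γ x / N‖ ≤ ε for all γ ∈ Γ}`; the norm is the distance to the nearest
integer. -/
def bohr {N : ℕ} (Γ : Finset (ZMod N)) (ε : ℝ) : Set (ZMod N) :=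
  {x | ∀ γ ∈ Γ, |((γ * x).val : ℝ) / (N : ℝ) - ((round (((γ * x).val : ℝ) / (N : ℝ)) : ℤ) : ℝ)| ≤ ε}

/-- The coset progression `H + {n_1 a_1 + … + n_d a_d : |n_i| ≤ L_i}`. -/
def cosetProg {N d : ℕ} (H : AddSubgroup (ZMod N)) (a : Fin d → ZMod N) (L : Fin d → ℕ) : Set (ZMod N) :=
  {x | ∃ h ∈ H, ∃ n : Fin d → ℤ, (∀ i, |n i| ≤ L i) ∧ x = h + ∑ i, (n i : ZMod N) * a i}

/-- The coset progression is proper: different coefficients give different cosets of `H`. -/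
def Proper {N d : ℕ} (H : AddSubgroup (ZMod N)) (a : Fin d → ZMod N) (L : Fin d → ℕ) : Prop :=
  ∀ n n' : Fin d → ℤ, (∀ i, |n i| ≤ L i) → (∀ i, |n' i| ≤ L i) →
    (∑ i, (n i : ZMod N) * a i) - (∑ i, (n' i : ZMod N) * a i) ∈ H → n = n'

/-- The set `2A - 2A`. -/
def twoAMinusTwoA {N : ℕ} (A : Finset (ZMod N)) : Set (ZMod N) :=
  {x | ∃ a₁ ∈ A, ∃ a₂ ∈ A, ∃ a₃ ∈ A, ∃ a₄ ∈ A, x = a₁ + a₂ - a₃ - a₄}

/-- The number of elements of a proper coset progression. -/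
theorem card_cosetProg {N : ℕ} (hN : 0 < N) {d : ℕ} (H : AddSubgroup (ZMod N)) (a : Fin d → ZMod N) (L : Fin d → ℕ)
    (hprop : Proper H a L) : (cosetProg H a L).ncard = Nat.card H * (GP.box L).card := by
  have : NeZero N := ⟨hN.ne'⟩
  have h1 : cosetProg H a L = (fun p : ZMod N × (Fin d → ℤ) => p.1 + ∑ i, (p.2 i : ZMod N) * a i) ''
      ((H : Set (ZMod N)) ×ˢ (GP.box L : Set (Fin d → ℤ))) := by
    ext x
    constructor
    · rintro ⟨h, hh, n, hn, rfl⟩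
      refine ⟨(h, n), ⟨hh, ?_⟩, rfl⟩
      rw [Finset.mem_coe, GP.mem_box]
      exact hn
    · rintro ⟨⟨h, n⟩, ⟨hh, hn⟩, rfl⟩
      rw [Finset.mem_coe, GP.mem_box] at hn
      exact ⟨h, hh, n, hn, rfl⟩
  have h2 : Set.InjOn (fun p : ZMod N × (Fin d → ℤ) => p.1 + ∑ i, (p.2 i : ZMod N) * a i)
      ((H : Set (ZMod N)) ×ˢ (GP.box L : Set (Fin d → ℤ))) := by
    rintro ⟨h, n⟩ ⟨hh, hn⟩ ⟨h', n'⟩ ⟨hh', hn'⟩ heq
    rw [Finset.mem_coe, GP.mem_box] at hn hn'
    have heq' : h + ∑ i, (n i : ZMod N) * a i = h' + ∑ i, (n' i : ZMod N) * a i := heq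
    have h3 : n = n' := by
      refine hprop n n' hn hn' ?_
      have h4 : (∑ i, (n i : ZMod N) * a i) - (∑ i, (n' i : ZMod N) * a i) = h' - h := by
        rw [sub_eq_sub_iff_add_eq_add, add_comm, heq']
      rw [h4]
      exact H.sub_mem hh' hh
    subst h3
    have h5 := add_right_cancel heq'
    rw [h5]
  rw [h1, h2.ncard_image, Set.ncard_prod, Set.ncard_coe_finset]
  rfl

/-- A proper coset progression contains a Bohr set of small dimension. -/
theorem part_one (N : ℕ) (hN : 0 < N) (H : AddSubgroup (ZMod N)) (d : ℕ) (a : Fin d → ZMod N) (L : Fin d → ℕ)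
    (hprop : Proper H a L) (R : ℝ) (hR : (d : ℝ) + 2 ≤ R) :
    ∃ Γ : Finset (ZMod N),
      (Γ.card : ℝ) ≤ 175 * d + 1 + 5 * (Real.log ((N : ℝ) / ((cosetProg H a L).ncard : ℝ)) / Real.log R) ∧
      bohr Γ (1 / (8 * R)) ⊆ cosetProg H a L := by
  have : NeZero N := ⟨hN.ne'⟩
  obtain ⟨Γ, h1, h2⟩ := GP.coset H a L hprop R hR
  refine ⟨Γ, ?_, fun x hx => ?_⟩
  · rw [card_cosetProg hN H a L hprop]
    push_cast at h1 ⊢
    exact h1
  · obtain ⟨y, hy, m, hm, hxy⟩ := h2 x fun g hg => hx g hg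
    exact ⟨y, hy, m, hm, hxy⟩

/-- The theorem of the starting file `ProperProgressions`. -/
theorem properProg (C : ℝ) (hC : 0 < C) (N : ℕ) (hN : 0 < N) (A : Finset (ZMod N)) (hAne : A.Nonempty)
    (hα : (A.card : ℝ) / (N : ℝ) ≤ 1 / 2)
    -- `P = cosetProg H a L` is a proper coset progression of dimension `d ≤ C log (1/α)`
    (H : AddSubgroup (ZMod N)) (d : ℕ) (a : Fin d → ZMod N) (L : Fin d → ℕ) (hprop : Proper H a L)
    (hd : (d : ℝ) ≤ C * Real.log ((N : ℝ) / (A.card : ℝ))) :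
    -- `P` is contained in `2A - 2A` and has density at least `exp (- C log (1/α) log (2 + log (1/α)))`
    (cosetProg H a L ⊆ twoAMinusTwoA A →
      Real.log ((N : ℝ) / ((cosetProg H a L).ncard : ℝ)) ≤
        C * Real.log ((N : ℝ) / (A.card : ℝ)) * Real.log (2 + Real.log ((N : ℝ) / (A.card : ℝ))) →
      ∃ (Γ : Finset (ZMod N)) (ε : ℝ), 0 < ε ∧
        (Γ.card : ℝ) ≤ (185 * C + 2) * Real.log ((N : ℝ) / (A.card : ℝ)) ∧
        (1 / (8 * (C + 3))) / Real.log ((N : ℝ) / (A.card : ℝ)) ≤ ε ∧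
        bohr Γ ε ⊆ twoAMinusTwoA A) ∧
    -- `P` is the set `A`
    ((A : Set (ZMod N)) = cosetProg H a L →
      ∃ (Γ : Finset (ZMod N)) (ε : ℝ), 0 < ε ∧
        (Γ.card : ℝ) ≤ (175 * C + 10) * Real.log ((N : ℝ) / (A.card : ℝ)) ∧
        (1 / (8 * (C + 3))) / Real.log ((N : ℝ) / (A.card : ℝ)) ≤ ε ∧
        bohr Γ ε ⊆ (A : Set (ZMod N)) ∧ bohr Γ ε ⊆ twoAMinusTwoA A) := by
  obtain ⟨l, hl⟩ : ∃ l : ℝ, l = Real.log ((N : ℝ) / (A.card : ℝ)) := ⟨_, rfl⟩
  rw [← hl] at hd ⊢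
  have hNpos : (0 : ℝ) < N := by exact_mod_cast hN
  have hApos : (0 : ℝ) < A.card := by exact_mod_cast hAne.card_pos
  have h2 : (2 : ℝ) ≤ (N : ℝ) / (A.card : ℝ) := by
    rw [div_le_iff₀ hNpos] at hα
    rw [le_div_iff₀ hApos]
    linarith
  have hl2 : Real.log 2 ≤ l := by
    rw [hl]
    exact Real.log_le_log (by norm_num) h2
  have hlog2 := Real.log_two_gt_d9
  have hl0 : 0 < l := by linarith
  obtain ⟨R, hR⟩ : ∃ R : ℝ, R = (C + 3) * l := ⟨_, rfl⟩
  have hR3 : 3 * l ≤ R := by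
    rw [hR]; nlinarith
  have hRC : C * l + 2 ≤ R := by
    rw [hR]
    nlinarith
  have hR2 : 2 ≤ R := by nlinarith
  obtain ⟨Γ, hΓ, hΓ'⟩ := part_one N hN H d a L hprop R (by linarith)
  have hlogR : 0 < Real.log R := Real.log_pos (by linarith)
  have hεR : 1 / (8 * (C + 3)) / l ≤ 1 / (8 * R) := by
    rw [hR, div_div]
    apply le_of_eq
    congr 1
    ring
  constructor
  · intro hsub hdens
    have hlog : Real.log (2 + l) ≤ 2 * Real.log R := by
      have h3 : 2 + l ≤ R ^ 2 := by nlinarith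
      have h4 := Real.log_le_log (by linarith) h3
      rw [Real.log_pow] at h4
      push_cast at h4
      exact h4
    refine ⟨Γ, 1 / (8 * R), by positivity, ?_, hεR, hΓ'.trans hsub⟩
    have h5 : Real.log ((N : ℝ) / ((cosetProg H a L).ncard : ℝ)) / Real.log R ≤ 2 * (C * l) := by
      rw [div_le_iff₀ hlogR]
      calc Real.log ((N : ℝ) / ((cosetProg H a L).ncard : ℝ)) ≤ C * l * Real.log (2 + l) := hdens
        _ ≤ C * l * (2 * Real.log R) := by
            apply mul_le_mul_of_nonneg_left hlog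
            positivity
        _ = 2 * (C * l) * Real.log R := by ring
    calc (Γ.card : ℝ) ≤ 175 * d + 1 + 5 * (Real.log ((N : ℝ) / ((cosetProg H a L).ncard : ℝ)) / Real.log R) := hΓ
      _ ≤ 175 * (C * l) + 2 * l + 5 * (2 * (C * l)) := by linarith
      _ = (185 * C + 2) * l := by ring
  · intro hA
    have hcard : (cosetProg H a L).ncard = A.card := by
      rw [← hA, Set.ncard_coe_finset]
    rw [hcard, ← hl] at hΓ
    have h0A : (0 : ZMod N) ∈ A := by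
      rw [← Finset.mem_coe, hA]
      exact ⟨0, H.zero_mem, 0, fun i => by simp, by simp⟩
    refine ⟨Γ, 1 / (8 * R), by positivity, ?_, hεR, ?_, ?_⟩
    · have h5 : l / Real.log R ≤ 8 / 5 * l := by
        rw [div_le_iff₀ hlogR]
        have h6 : Real.log 2 ≤ Real.log R := Real.log_le_log (by norm_num) hR2
        have h7 : (5 : ℝ) / 8 ≤ Real.log R := by linarith
        nlinarith
      calc (Γ.card : ℝ) ≤ 175 * d + 1 + 5 * (l / Real.log R) := hΓ
        _ ≤ 175 * (C * l) + 2 * l + 5 * (8 / 5 * l) := by linarith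
        _ = (175 * C + 10) * l := by ring
    · rw [hA]; exact hΓ'
    · intro x hx
      have hx' : x ∈ A := by
        rw [← Finset.mem_coe, hA]
        exact hΓ' hx
      exact ⟨x, hx', 0, h0A, 0, h0A, 0, h0A, by simp⟩


/-- The conclusion of Q1 for `A`, with the constant `C`. -/
def Q1For {N : ℕ} (C : ℝ) (A : Finset (ZMod N)) : Prop :=
  ∃ (Γ : Finset (ZMod N)) (ε : ℝ), 0 < ε ∧
    (Γ.card : ℝ) ≤ C * Real.log ((N : ℝ) / (A.card : ℝ)) ∧
    1 / C / Real.log ((N : ℝ) / (A.card : ℝ)) ≤ ε ∧ bohr Γ ε ⊆ twoAMinusTwoA A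

lemma ell_facts {N : ℕ} (hN : 0 < N) (A : Finset (ZMod N)) (hAne : A.Nonempty)
    (hα : (A.card : ℝ) / (N : ℝ) ≤ 1 / 2) :
    Real.log 2 ≤ Real.log ((N : ℝ) / (A.card : ℝ)) ∧ 9 / 10 ≤ Real.log (2 + Real.log ((N : ℝ) / (A.card : ℝ))) := by
  have hNpos : (0 : ℝ) < N := by exact_mod_cast hN
  have hApos : (0 : ℝ) < A.card := by exact_mod_cast hAne.card_pos
  have h2 : (2 : ℝ) ≤ (N : ℝ) / (A.card : ℝ) := by
    rw [div_le_iff₀ hNpos] at hα
    rw [le_div_iff₀ hApos]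
    linarith
  have h3 : Real.log 2 ≤ Real.log ((N : ℝ) / (A.card : ℝ)) := Real.log_le_log (by norm_num) h2
  refine ⟨h3, ?_⟩
  have hlog2 := Real.log_two_gt_d9
  rw [Real.le_log_iff_exp_le (by linarith)]
  have h4 : Real.exp (9 / 10) ≤ 2.5 := by
    have h5 : Real.exp (9 / 10) ^ 10 ≤ 2.5 ^ 10 := by
      rw [← Real.exp_nat_mul]
      have h6 : ((10 : ℕ) : ℝ) * (9 / 10) = (9 : ℕ) * 1 := by norm_num
      rw [h6, Real.exp_nat_mul]
      have h7 := Real.exp_one_lt_d9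
      calc Real.exp 1 ^ 9 ≤ 2.7182818286 ^ 9 := pow_le_pow_left₀ (Real.exp_pos 1).le h7.le 9
        _ ≤ 2.5 ^ 10 := by norm_num
    exact (pow_le_pow_iff_left₀ (Real.exp_pos _).le (by norm_num) (by norm_num)).1 h5
  linarith

/-- Q1 from a proper coset progression in `2A - 2A`. -/
lemma of_prog (D : ℝ) (hD : 0 < D) {N : ℕ} (hN : 0 < N) (A : Finset (ZMod N)) (hAne : A.Nonempty)
    (hα : (A.card : ℝ) / (N : ℝ) ≤ 1 / 2) (H : AddSubgroup (ZMod N)) (d : ℕ) (a : Fin d → ZMod N) (L : Fin d → ℕ)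
    (hprop : Proper H a L) (hd : (d : ℝ) ≤ D * Real.log ((N : ℝ) / (A.card : ℝ)))
    (hsub : cosetProg H a L ⊆ twoAMinusTwoA A)
    (hden : Real.log ((N : ℝ) / ((cosetProg H a L).ncard : ℝ)) ≤
        D * Real.log ((N : ℝ) / (A.card : ℝ)) * Real.log (2 + Real.log ((N : ℝ) / (A.card : ℝ)))) :
    ∀ C : ℝ, 185 * D + 26 ≤ C → Q1For C A := by
  intro C hC
  obtain ⟨Γ, ε, h1, h2, h3, h4⟩ := (properProg D hD N hN A hAne hα H d a L hprop hd).1 hsub hden
  obtain ⟨h5, h6⟩ := ell_facts hN A hAne hα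
  have hlog2 := Real.log_two_gt_d9
  have hl : 0 < Real.log ((N : ℝ) / (A.card : ℝ)) := by linarith
  refine ⟨Γ, ε, h1, h2.trans ?_, le_trans ?_ h3, h4⟩
  · apply mul_le_mul_of_nonneg_right _ hl.le
    linarith
  · apply div_le_div_of_nonneg_right _ hl.le
    apply one_div_le_one_div_of_le (by positivity)
    linarith

/-- Q1 holds for the sets of density smaller than a power of `1 / N`. -/
lemma of_sparse (D : ℝ) (hD : 0 < D) {N : ℕ} (hN : 0 < N) (A : Finset (ZMod N)) (hAne : A.Nonempty)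
    (hα : (A.card : ℝ) / (N : ℝ) ≤ 1 / 2) (h : Real.log N ≤ D * Real.log ((N : ℝ) / (A.card : ℝ))) :
    ∀ C : ℝ, 370 * D + 26 ≤ C → Q1For C A := by
  intro C hC
  have : NeZero N := ⟨hN.ne'⟩
  obtain ⟨h5, h6⟩ := ell_facts hN A hAne hα
  have hlog2 := Real.log_two_gt_d9
  have hl : 0 < Real.log ((N : ℝ) / (A.card : ℝ)) := by linarith
  have hP : cosetProg (N := N) (d := 0) ⊥ (fun i => i.elim0) (fun i => i.elim0) = {0} := by
    ext x
    simp [cosetProg]
  refine of_prog (2 * D) (by positivity) hN A hAne hα ⊥ 0 (fun i => i.elim0) (fun i => i.elim0) ?_ ?_ ?_ ?_ C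
    (by linarith)
  · intro n n' _ _ _
    exact Subsingleton.elim _ _
  · push_cast
    positivity
  · rw [hP]
    rintro x rfl
    obtain ⟨y, hy⟩ := hAne
    exact ⟨y, hy, y, hy, y, hy, y, hy, by abel⟩
  · rw [hP, Set.ncard_singleton, Nat.cast_one, div_one]
    have h7 : 0 ≤ D * Real.log ((N : ℝ) / (A.card : ℝ)) := by positivity
    nlinarith

end Run7.h671.RS
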