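import Pool.Agent.Run7.h671.RS.Pop
import Pool.Agent.Run7.h671.RS.Prog
import Pool.Agent.N142.CD.FIN3
import Pool.Agent.N142.CD.FR
import Pool.Agent.N142.CD.INV
import Pool.Agent.N142.CD.LCH
import Pool.Agent.N142.CD.VOL
import Pool.Agent.N142.CD.CS
import Pool.Agent.N142.CD.MOM

/-!
# Random subsets of sets of moderate doubling
-/

set_option autoImplicit false

namespace Run7.h671.RS

open Finset Pool.Agent.TH858 Pool.Agent.N142.CD
open scoped Pointwise

variable {N : ℕ} [NeZero N]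

/-- The number of representations of `s` as a sum. -/
def rep (A : Finset (ZMod N)) (s : ZMod N) : ℝ := ∑ c, ind A c * ind A (s - c)

lemma sum_rep (A : Finset (ZMod N)) (g : ZMod N → ℝ) :
    ∑ x ∈ A, ∑ a ∈ A, g (x + a) = ∑ s ∈ A + A, rep A s * g s := by
  have h1 : ∑ s ∈ A + A, rep A s * g s = ∑ s, rep A s * g s := by
    refine sum_subset (subset_univ _) fun s _ hs => ?_
    have : rep A s = 0 := by
      unfold rep
      refine sum_eq_zero fun c _ => ?_
      unfold ind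
      by_cases h : c ∈ A
      · by_cases h' : s - c ∈ A
        · exfalso
          apply hs
          rw [mem_add]
          exact ⟨c, h, s - c, h', by ring⟩
        · simp [h']
      · simp [h]
    rw [this, zero_mul]
  rw [h1]
  unfold rep
  simp only [sum_mul]
  have h5 : ∑ s, ∑ c, ind A c * ind A (s - c) * g s = ∑ c, ∑ s, ind A c * ind A (s - c) * g s := sum_comm
  rw [h5]
  have h2 : ∀ c : ZMod N, ∑ s, ind A c * ind A (s - c) * g s = ind A c * ∑ a ∈ A, g (c + a) := by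
    intro c
    rw [← Equiv.sum_comp (Equiv.addLeft c), mul_sum]
    have h3 : ∀ a : ZMod N, ind A c * ind A ((Equiv.addLeft c) a - c) * g ((Equiv.addLeft c) a) =
        if a ∈ A then ind A c * g (c + a) else 0 := by
      intro a
      simp only [Equiv.coe_addLeft, add_sub_cancel_left]
      unfold ind
      by_cases h : a ∈ A <;> simp [h]
    rw [sum_congr rfl fun a _ => h3 a, sum_ite_mem, univ_inter]
  rw [sum_congr rfl fun c _ => h2 c]
  have h4 : ∀ c : ZMod N, ind A c * ∑ a ∈ A, g (c + a) = if c ∈ A then ∑ a ∈ A, g (c + a) else 0 := by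
    intro c
    unfold ind
    by_cases h : c ∈ A <;> simp [h]
  rw [sum_congr rfl fun c _ => h4 c, sum_ite_mem, univ_inter]

/-- The popular sums. -/
noncomputable def popS (A : Finset (ZMod N)) (K : ℝ) : Finset (ZMod N) := by
  classical
  exact (A + A).filter fun s => (A.card : ℝ) / (2 * K) ≤ rep A s

lemma gn_popS (A : Finset (ZMod N)) (K : ℝ) (hA : A.Nonempty) (hK : 1 ≤ K)
    (hAA : ((A + A).card : ℝ) ≤ K * A.card) : 1 / 2 ≤ gn A (popS A K) 0 := by
  classical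
  have hAc : (0 : ℝ) < A.card := by exact_mod_cast hA.card_pos
  have e1 : gn A (popS A K) 0 =
      (∑ x ∈ A, ∑ a ∈ A, (if x + a ∈ popS A K then (1 : ℝ) else 0)) / (A.card : ℝ) ^ 2 := by
    unfold gn Fn
    rw [← sum_div, div_div, ← pow_two]
    simp only [add_zero]
  have e2 : (A.card : ℝ) ^ 2 = ∑ s ∈ A + A, rep A s * 1 := by
    rw [← sum_rep A fun _ => 1]
    simp only [sum_const, nsmul_eq_mul, mul_one]
    ring
  have e3 := sum_rep A fun s => if s ∈ popS A K then (1 : ℝ) else 0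
  rw [e1, e3, le_div_iff₀ (by positivity)]
  have e4 : (A.card : ℝ) ^ 2 - ∑ s ∈ A + A, rep A s * (if s ∈ popS A K then (1 : ℝ) else 0) =
      ∑ s ∈ A + A, rep A s * (if s ∈ popS A K then (0 : ℝ) else 1) := by
    rw [e2, ← sum_sub_distrib]
    refine sum_congr rfl fun s _ => ?_
    split_ifs <;> ring
  have e5 : ∑ s ∈ A + A, rep A s * (if s ∈ popS A K then (0 : ℝ) else 1) ≤
      ∑ _s ∈ A + A, (A.card : ℝ) / (2 * K) := by
    refine sum_le_sum fun s hs => ?_
    by_cases h : s ∈ popS A K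
    · rw [if_pos h, mul_zero]; positivity
    · rw [if_neg h, mul_one]
      by_contra hcon
      push Not at hcon
      apply h
      unfold popS
      rw [mem_filter]
      exact ⟨hs, hcon.le⟩
  have e6 : ∑ _s ∈ A + A, (A.card : ℝ) / (2 * K) ≤ (A.card : ℝ) ^ 2 / 2 := by
    rw [sum_const, nsmul_eq_mul]
    calc ((A + A).card : ℝ) * (A.card / (2 * K)) ≤ (K * A.card) * (A.card / (2 * K)) := by gcongr
      _ = (A.card : ℝ) ^ 2 / 2 := by field_simp
  linarith

lemma rr_ge (A : Finset (ZMod N)) (K : ℝ) (hK : 1 ≤ K) (hA : A.Nonempty) (y : ZMod N) :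
    (A.card : ℝ) ^ 3 / (2 * K) * gn A (popS A K) y ≤ rr (ind A) (ind A) (ind A) (ind A) (-y) := by
  classical
  have hAc : (0 : ℝ) < A.card := by exact_mod_cast hA.card_pos
  have e1 : rr (ind A) (ind A) (ind A) (ind A) (-y) = ∑ x ∈ A, ∑ a ∈ A, rep A (x + y + a) := by
    unfold rr
    have h1 : ∀ a b : ZMod N, ∑ c, ind A a * ind A b * ind A c * ind A (a + b - c - -y) =
        ind A a * (ind A b * rep A (a + y + b)) := by
      intro a b
      unfold rep
      rw [mul_sum, mul_sum]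
      refine sum_congr rfl fun c _ => ?_
      have : a + b - c - -y = a + y + b - c := by ring
      rw [this]; ring
    have h2 : ∀ a : ZMod N, ∑ b, ∑ c, ind A a * ind A b * ind A c * ind A (a + b - c - -y) =
        if a ∈ A then ∑ b ∈ A, rep A (a + y + b) else 0 := by
      intro a
      rw [sum_congr rfl fun b _ => h1 a b]
      unfold ind
      by_cases h : a ∈ A
      · simp only [if_pos h, one_mul, ite_mul, zero_mul, sum_ite_mem, univ_inter]
      · simp [h]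
    rw [sum_congr rfl fun a _ => h2 a, sum_ite_mem, univ_inter]
  have e2 : (A.card : ℝ) ^ 3 / (2 * K) * gn A (popS A K) y =
      ∑ x ∈ A, ∑ a ∈ A, (A.card : ℝ) / (2 * K) * (if x + y + a ∈ popS A K then (1 : ℝ) else 0) := by
    unfold gn Fn
    rw [← sum_div]
    simp only [← mul_sum]
    field_simp
  rw [e1, e2]
  refine sum_le_sum fun x _ => sum_le_sum fun a _ => ?_
  by_cases h : x + y + a ∈ popS A K
  · rw [if_pos h, mul_one]
    unfold popS at h
    rw [mem_filter] at h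
    exact h.2
  · rw [if_neg h, mul_zero]
    unfold rep
    exact sum_nonneg fun c _ => mul_nonneg (ind_nonneg _ _) (ind_nonneg _ _)

omit [NeZero N] in
lemma rr_neg [NeZero N] (f : ZMod N → ℝ) (x : ZMod N) : rr f f f f (-x) = rr f f f f x := by
  rw [rr_eq_cv, rr_eq_cv, ← Equiv.sum_comp (Equiv.subRight x) fun s => cv f f s * cv f f (s - -x)]
  refine sum_congr rfl fun s _ => ?_
  simp only [Equiv.subRight_apply]
  have : s - x - -x = s := by ring
  rw [this, mul_comm]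

/-- A Bohr set consisting of popular elements of `2S - 2S`. -/
theorem popular_bohr : ∃ C : ℝ, 1 ≤ C ∧ ∀ (N : ℕ) [NeZero N] (S : Finset (ZMod N)) (K : ℝ) (R : ℕ), S.Nonempty →
    1 ≤ K → ((S + S).card : ℝ) ≤ K * S.card → 300 * Real.log (2 * K) + 3 ≤ R →
    ∃ Γ : Finset (ZMod N), (Γ.card : ℝ) ≤
      C * (Real.log (N / S.card) / Real.log R + Real.log (2 * K) ^ 4 * (1 + Real.log (2 * K) / Real.log R)) ∧
      ∀ y ∈ bohr Γ (1 / (8 * R)), 1 / (8 * K) * (S.card : ℝ) ^ 3 ≤ rr (ind S) (ind S) (ind S) (ind S) y := by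
  classical
  obtain ⟨C, hC, h⟩ := core_gen t_FR (t_CS t_MOM) t_VOL t_INV t_LCH
  refine ⟨C, hC, fun N _ S K R hS hK hSS hR => ?_⟩
  obtain ⟨Γ, h1, h2⟩ := h N S (popS S K) K R hS hK hSS (by unfold popS; exact filter_subset _ _)
    (gn_popS S K hS hK hSS) hR
  refine ⟨Γ, h1, fun y hy => ?_⟩
  have h3 := h2 y fun g hg => hy g hg
  have h4 := rr_ge S K hK hS y
  rw [rr_neg] at h4
  refine le_trans ?_ h4
  have h5 : 0 ≤ (S.card : ℝ) ^ 3 / (2 * K) := by positivity
  calc 1 / (8 * K) * (S.card : ℝ) ^ 3 = (S.card : ℝ) ^ 3 / (2 * K) * (1 / 4) := by field_simp; ring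
    _ ≤ _ := mul_le_mul_of_nonneg_left h3 h5

/-- `L ≤ 8 D ℓ` -/
lemma L_le (D l L : ℝ) (hD : 1 ≤ D) (hl : 69 / 100 ≤ l) (hL : 69 / 100 ≤ L)
    (h : L ^ 5 ≤ D * (l * Real.log (2 + l))) : L ≤ 8 * D * l := by
  have h1 : Real.log (2 + l) ≤ 1 + l := by
    have := Real.log_le_sub_one_of_pos (by linarith : 0 < 2 + l)
    linarith
  have hDl : l ≤ D * l := by nlinarith
  rcases le_total L l with h2 | h2
  · nlinarith
  · have h3 : L ^ 5 ≤ D * (l * (1 + L)) := by
      refine h.trans ?_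
      gcongr
      linarith
    have h4 : 1 + L ≤ 5 / 2 * L := by linarith
    have h5 : L ^ 5 ≤ (5 / 2 * (D * l)) * L := by
      calc L ^ 5 ≤ D * (l * (1 + L)) := h3
        _ ≤ D * (l * (5 / 2 * L)) := by gcongr
        _ = _ := by ring
    have h6 : L ^ 4 ≤ 5 / 2 * (D * l) := by
      have h7 : L ^ 4 * L ≤ (5 / 2 * (D * l)) * L := by
        calc L ^ 4 * L = L ^ 5 := by ring
          _ ≤ _ := h5
      exact le_of_mul_le_mul_right h7 (by linarith)
    have h8 : (69 / 100 : ℝ) ^ 3 ≤ L ^ 3 := pow_le_pow_left₀ (by norm_num) hL 3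
    have h9 : L * (69 / 100 : ℝ) ^ 3 ≤ L ^ 4 := by
      calc L * (69 / 100 : ℝ) ^ 3 ≤ L * L ^ 3 := by gcongr
        _ = L ^ 4 := by ring
    norm_num at h9
    linarith

/-- The conclusion of Q1 if the popular elements of `2S - 2S` are contained in `2A - 2A`. -/
theorem dbl_concl (D : ℝ) (hD : 1 ≤ D) : ∃ C : ℝ, 1 ≤ C ∧ ∀ (N : ℕ) [NeZero N] (S A : Finset (ZMod N)) (K : ℝ),
    S.Nonempty → 1 ≤ K → ((S + S).card : ℝ) ≤ K * S.card → A.Nonempty → (A.card : ℝ) / (N : ℝ) ≤ 1 / 2 →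
    Real.log ((N : ℝ) / (S.card : ℝ)) ≤
      2 * D * (Real.log ((N : ℝ) / (A.card : ℝ)) * Real.log (2 + Real.log ((N : ℝ) / (A.card : ℝ)))) →
    Real.log (2 * K) ^ 5 ≤
      D * (Real.log ((N : ℝ) / (A.card : ℝ)) * Real.log (2 + Real.log ((N : ℝ) / (A.card : ℝ)))) →
    (∀ x, 1 / (8 * K) * (S.card : ℝ) ^ 3 ≤ rr (ind S) (ind S) (ind S) (ind S) x → x ∈ twoAMinusTwoA A) →
    Q1For C A := by
  obtain ⟨C₀, hC₀, h⟩ := popular_bohr
  refine ⟨C₀ * 12501 * (2 + 3 * D) + (72 + 19200 * D), by nlinarith, ?_⟩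
  intro N _ S A K hSne hK hSS hA hα hlS hL5 hpop
  have hNpos : (0 : ℝ) < N := by exact_mod_cast NeZero.pos N
  have hAc : (0 : ℝ) < A.card := by exact_mod_cast hA.card_pos
  have hSc : (0 : ℝ) < S.card := by exact_mod_cast hSne.card_pos
  obtain ⟨h5, h6⟩ := ell_facts (NeZero.pos N) A hA hα
  obtain ⟨l, hl⟩ : ∃ l : ℝ, l = Real.log ((N : ℝ) / (A.card : ℝ)) := ⟨_, rfl⟩
  obtain ⟨L, hL⟩ : ∃ L : ℝ, L = Real.log (2 * K) := ⟨_, rfl⟩
  rw [← hl] at h5 h6 hL5 hlS
  rw [← hL] at hL5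
  have hlog2 := Real.log_two_gt_d9
  have hL2 : Real.log 2 ≤ L := by rw [hL]; exact Real.log_le_log (by norm_num) (by linarith)
  have hl0 : 0 < l := by linarith
  have hL0 : 0 < L := by linarith
  have hLl : L ≤ 8 * D * l := L_le D l L hD (by linarith) (by linarith) hL5
  obtain ⟨R, hR⟩ : ∃ R : ℕ, R = ⌈l⌉₊ + ⌈300 * L⌉₊ + 3 := ⟨_, rfl⟩
  have h1 := Nat.le_ceil l
  have h2 := (Nat.ceil_lt_add_one hl0.le).le
  have h3 := Nat.le_ceil (300 * L)
  have h4 := (Nat.ceil_lt_add_one (by positivity : 0 ≤ 300 * L)).le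
  have hRR : (R : ℝ) = ⌈l⌉₊ + ⌈300 * L⌉₊ + 3 := by rw [hR]; push_cast; ring
  obtain ⟨Γ, hΓ1, hΓ2⟩ := h N S K R hSne hK hSS (by rw [← hL, hRR]; linarith)
  rw [← hL] at hΓ1
  have hRl : 2 + l ≤ (R : ℝ) := by rw [hRR]; linarith
  have hRu : (R : ℝ) ≤ (9 + 2400 * D) * l := by
    rw [hRR]
    have : 300 * L ≤ 2400 * D * l := by linarith
    linarith
  have hR0 : (0 : ℝ) < R := by linarith
  have hlogl : 0 < Real.log (2 + l) := by linarith
  have hlR : Real.log (2 + l) ≤ Real.log R := Real.log_le_log (by linarith) hRl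
  refine ⟨Γ, 1 / (8 * R), by positivity, ?_, ?_, fun y hy => hpop y (hΓ2 y hy)⟩
  · rw [← hl]
    have e1 : Real.log (N / S.card) / Real.log R ≤ 2 * D * l := by
      rw [div_le_iff₀ (by linarith)]
      calc Real.log (N / S.card) ≤ 2 * D * (l * Real.log (2 + l)) := hlS
        _ ≤ 2 * D * (l * Real.log R) := by gcongr
        _ = _ := by ring
    have e2 : L / Real.log R ≤ L / Real.log (2 + l) := div_le_div_of_nonneg_left hL0.le hlogl hlR
    have e3 := Pool.Agent.N142.CD.simplify l L h5 hL0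
    have e4 : (l + L ^ 5) / Real.log (2 + l) ≤ (2 + D) * l := by
      rw [div_le_iff₀ hlogl]
      nlinarith
    calc (Γ.card : ℝ) ≤ C₀ * (Real.log (N / S.card) / Real.log R + L ^ 4 * (1 + L / Real.log R)) := hΓ1
      _ ≤ C₀ * (2 * D * l + L ^ 4 * (1 + L / Real.log (2 + l))) := by gcongr
      _ ≤ C₀ * (2 * D * l + 12501 * ((l + L ^ 5) / Real.log (2 + l))) := by
          have e5 : 0 ≤ l / Real.log (2 + l) := by positivity
          apply mul_le_mul_of_nonneg_left _ (by linarith)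
          linarith
      _ ≤ C₀ * (2 * D * l + 12501 * ((2 + D) * l)) := by gcongr
      _ ≤ (C₀ * 12501 * (2 + 3 * D) + (72 + 19200 * D)) * l := by
          have e6 : 0 ≤ (72 + 19200 * D) * l := by positivity
          have e7 : 0 ≤ C₀ * (D * l) := by positivity
          linarith
  · rw [← hl, div_div]
    apply one_div_le_one_div_of_le (by positivity)
    have : 0 ≤ C₀ * 12501 * (2 + 3 * D) * l := by positivity
    linarith

/-- **Deterministic form.** -/
theorem dbl_det (D : ℝ) (hD : 1 ≤ D) : ∃ C : ℝ, 1 ≤ C ∧ ∀ (N : ℕ) [NeZero N] (S A A' : Finset (ZMod N)) (K δ : ℝ),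
    S.Nonempty → 1 ≤ K → ((S + S).card : ℝ) ≤ K * S.card → 0 < δ → A' ⊆ A →
    En (fun x => ind A' x - δ * ind S x) ≤ (1 / (8 * K) / 16) ^ 4 * (δ ^ 4 * (S.card : ℝ) ^ 3) →
    A.Nonempty → (A.card : ℝ) / (N : ℝ) ≤ 1 / 2 →
    Real.log ((N : ℝ) / (S.card : ℝ)) ≤
      D * (Real.log ((N : ℝ) / (A.card : ℝ)) * Real.log (2 + Real.log ((N : ℝ) / (A.card : ℝ)))) →
    Real.log (2 * K) ^ 5 ≤
      D * (Real.log ((N : ℝ) / (A.card : ℝ)) * Real.log (2 + Real.log ((N : ℝ) / (A.card : ℝ)))) →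
    Q1For C A := by
  obtain ⟨C, hC, h⟩ := dbl_concl D hD
  refine ⟨C, hC, fun N _ S A A' K δ hS hK hSS hδ hA' hEn hA hα hlS hL => ?_⟩
  obtain ⟨h5, h6⟩ := ell_facts (NeZero.pos N) A hA hα
  have hnn : 0 ≤ D * (Real.log ((N : ℝ) / (A.card : ℝ)) * Real.log (2 + Real.log ((N : ℝ) / (A.card : ℝ)))) := by
    have q1 : 0 ≤ Real.log ((N : ℝ) / (A.card : ℝ)) := by linarith [Real.log_two_gt_d9]
    have q2 : 0 ≤ Real.log (2 + Real.log ((N : ℝ) / (A.card : ℝ))) := by linarith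
    positivity
  refine h N S A K hS hK hSS hA hα (by linarith) hL fun x hx => ?_
  have hρ0 : 0 < 1 / (8 * K) := by positivity
  have hρ1 : 1 / (8 * K) ≤ 1 := by
    rw [div_le_one (by positivity)]
    linarith
  obtain ⟨a₁, h₁, a₂, h₂, a₃, h₃, a₄, h₄, he⟩ := popular S A' δ (1 / (8 * K) / 16) (1 / (8 * K)) hδ hS
    (by positivity) (by linarith) (by linarith) hEn x hx
  exact ⟨a₁, hA' h₁, a₂, hA' h₂, a₃, hA' h₃, a₄, hA' h₄, he⟩

/-- **Random form.** -/
theorem dbl_random (D : ℝ) (hD : 1 ≤ D) : ∃ C₁ : ℝ, 1 ≤ C₁ ∧ ∀ (N : ℕ) [NeZero N] (S : Finset (ZMod N)) (K : ℝ),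
    S.Nonempty → 1 ≤ K → ((S + S).card : ℝ) ≤ K * S.card → ∀ δ : ℝ, 0 < δ → δ ≤ 1 → ∀ C : ℝ, C₁ ≤ C →
    ∀ (Bad : Finset (ZMod N) → Prop) [DecidablePred Bad],
    (∀ A, Bad A → A.Nonempty ∧ (A.card : ℝ) / (N : ℝ) ≤ 1 / 2 ∧
      Real.log (2 * K) ^ 5 ≤
        D * (Real.log ((N : ℝ) / (A.card : ℝ)) * Real.log (2 + Real.log ((N : ℝ) / (A.card : ℝ)))) ∧
      ¬ Q1For C A) →
    ∑ A ∈ S.powerset with Bad A, wt δ S A ≤ (N : ℝ) ^ (-(1 / 8 : ℝ)) := by
  obtain ⟨C₁, hC₁, h⟩ := dbl_concl D hD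
  refine ⟨C₁ + (370 * (36 + 7 * (24 * D)) + 26), by linarith, ?_⟩
  intro N _ S K hS hK hSS δ hδ hδ1 C hC Bad _ hBad
  have hlog2 := Real.log_two_gt_d9
  have hρ0 : 0 < 1 / (8 * K) := by positivity
  have hρ1 : 1 / (8 * K) ≤ 1 := by
    rw [div_le_one (by positivity)]
    linarith
  have mono : ∀ A : Finset (ZMod N), A.Nonempty → (A.card : ℝ) / (N : ℝ) ≤ 1 / 2 → Q1For C₁ A → Q1For C A := by
    intro A hA hα hq
    obtain ⟨Γ, ε, g1, g2, g3, g4⟩ := hq
    obtain ⟨h5, h6⟩ := ell_facts (NeZero.pos N) A hA hα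
    have hl0 : 0 < Real.log ((N : ℝ) / (A.card : ℝ)) := by linarith
    refine ⟨Γ, ε, g1, g2.trans ?_, le_trans ?_ g3, g4⟩
    · gcongr
      linarith
    · apply div_le_div_of_nonneg_right _ hl0.le
      apply one_div_le_one_div_of_le (by positivity)
      linarith
  refine prob_bound S hS δ hδ hδ1 (1 / (8 * K)) hρ0 hρ1 (24 * D) Bad ?_ ?_ ?_
  · intro A _ hA
    obtain ⟨b1, b2, b3, b4⟩ := hBad A hA
    refine ⟨b1, b2, ?_⟩
    obtain ⟨h5, h6⟩ := ell_facts (NeZero.pos N) A b1 b2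
    unfold ell
    obtain ⟨l, hl⟩ : ∃ l : ℝ, l = Real.log ((N : ℝ) / (A.card : ℝ)) := ⟨_, rfl⟩
    rw [← hl] at h5 h6 b3 ⊢
    have hL2 : Real.log 2 ≤ Real.log (2 * K) := Real.log_le_log (by norm_num) (by linarith)
    have hLl := L_le D l (Real.log (2 * K)) hD (by linarith) (by linarith) b3
    rw [one_div_one_div]
    have e : 8 * K = 2 ^ 2 * (2 * K) := by ring
    rw [e, Real.log_mul (by norm_num) (by positivity), Real.log_pow]
    push_cast
    linarith
  · intro A hAS hA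
    obtain ⟨b1, b2, b3, b4⟩ := hBad A hA
    by_contra hcon
    push Not at hcon
    apply b4
    refine mono A b1 b2 (h N S A K hS hK hSS b1 b2 ?_ b3 fun x hx => ?_)
    · obtain ⟨h5, h6⟩ := ell_facts (NeZero.pos N) A b1 b2
      have hNpos : (0 : ℝ) < N := by exact_mod_cast NeZero.pos N
      have hAc : (0 : ℝ) < A.card := by exact_mod_cast b1.card_pos
      have hSc : (0 : ℝ) < S.card := by exact_mod_cast hS.card_pos
      have hAS' : (A.card : ℝ) ≤ S.card := by exact_mod_cast card_le_card hAS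
      have hlS : Real.log (N / S.card) ≤ Real.log ((N : ℝ) / (A.card : ℝ)) := by
        apply Real.log_le_log (by positivity)
        exact div_le_div_of_nonneg_left hNpos.le hAc hAS'
      obtain ⟨l, hl⟩ : ∃ l : ℝ, l = Real.log ((N : ℝ) / (A.card : ℝ)) := ⟨_, rfl⟩
      rw [← hl] at h5 h6 hlS ⊢
      have hl0 : 0 < l := by linarith
      have q3 : l ≤ 2 * (l * Real.log (2 + l)) := by nlinarith
      have q4 : 0 ≤ l * Real.log (2 + l) := by
        have : 0 ≤ Real.log (2 + l) := by linarith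
        positivity
      nlinarith
    · exact hcon x hx
  · intro A _ hA
    obtain ⟨b1, b2, b3, b4⟩ := hBad A hA
    by_contra hcon
    push Not at hcon
    apply b4
    unfold ell at hcon
    exact of_sparse (36 + 7 * (24 * D)) (by positivity) (NeZero.pos N) A b1 b2 hcon C (by linarith)

end Run7.h671.RS
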