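import Pool.Agent.Run7.h671.RS.En

/-!
# Random subsets: the expected energy of `1_A - δ 1_S`

A random subset `A` of `S` contains each element of `S` with probability `δ`, independently; `wt δ S A` is the
probability of `A`. The expected energy of `1_A - δ 1_S` is at most `12 δ² |S|² + 2 δ |S|` (`Ex_En_le`).
-/

set_option autoImplicit false

namespace Run7.h671.RS

open Finset

variable {G : Type*} [AddCommGroup G] [Fintype G] [DecidableEq G]

/-- The probability of `A` when each element of `S` is chosen with probability `δ`. -/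
def wt (δ : ℝ) (S A : Finset G) : ℝ := δ ^ A.card * (1 - δ) ^ (S \ A).card

/-- The expectation. -/
def Ex (δ : ℝ) (S : Finset G) (F : Finset G → ℝ) : ℝ := ∑ A ∈ S.powerset, wt δ S A * F A

omit [AddCommGroup G] [Fintype G] in
lemma wt_nonneg {δ : ℝ} (h0 : 0 ≤ δ) (h1 : δ ≤ 1) (S A : Finset G) : 0 ≤ wt δ S A :=
  mul_nonneg (pow_nonneg h0 _) (pow_nonneg (by linarith) _)

omit [AddCommGroup G] [Fintype G] in
lemma Ex_one (δ : ℝ) (S : Finset G) : Ex δ S (fun _ => 1) = 1 := by
  unfold Ex wt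
  have h := sum_pow_mul_eq_add_pow δ (1 - δ) S
  have e : δ + (1 - δ) = 1 := by ring
  rw [e, one_pow] at h
  refine Eq.trans (sum_congr rfl fun A hA => ?_) h
  rw [card_sdiff_of_subset (mem_powerset.1 hA), mul_one]

omit [AddCommGroup G] [Fintype G] in
lemma Ex_add (δ : ℝ) (S : Finset G) (F F' : Finset G → ℝ) :
    Ex δ S (fun A => F A + F' A) = Ex δ S F + Ex δ S F' := by
  unfold Ex
  rw [← sum_add_distrib]
  exact sum_congr rfl fun A _ => by ring

omit [AddCommGroup G] [Fintype G] in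
lemma Ex_mul (δ c : ℝ) (S : Finset G) (F : Finset G → ℝ) :
    Ex δ S (fun A => c * F A) = c * Ex δ S F := by
  unfold Ex
  rw [mul_sum]
  exact sum_congr rfl fun A _ => by ring

omit [AddCommGroup G] [Fintype G] in
lemma Ex_sum {ι : Type*} (δ : ℝ) (S : Finset G) (s : Finset ι) (F : ι → Finset G → ℝ) :
    Ex δ S (fun A => ∑ i ∈ s, F i A) = ∑ i ∈ s, Ex δ S (F i) := by
  unfold Ex
  simp only [mul_sum]
  exact sum_comm

omit [AddCommGroup G] [Fintype G] in
lemma Ex_mono {δ : ℝ} (h0 : 0 ≤ δ) (h1 : δ ≤ 1) (S : Finset G) (F F' : Finset G → ℝ)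
    (h : ∀ A ∈ S.powerset, F A ≤ F' A) : Ex δ S F ≤ Ex δ S F' :=
  sum_le_sum fun A hA => mul_le_mul_of_nonneg_left (h A hA) (wt_nonneg h0 h1 S A)

omit [AddCommGroup G] [Fintype G] in
lemma Ex_congr (δ : ℝ) (S : Finset G) (F F' : Finset G → ℝ)
    (h : ∀ A ∈ S.powerset, F A = F' A) : Ex δ S F = Ex δ S F' :=
  sum_congr rfl fun A hA => by rw [h A hA]

omit [AddCommGroup G] [Fintype G] in
/-- Independence. -/
lemma Ex_indep (δ : ℝ) (S : Finset G) (x : G) (hx : x ∈ S) (Φ : Finset G → ℝ)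
    (hΦ : ∀ A : Finset G, Φ (insert x A) = Φ A) :
    Ex δ S (fun A => (ind A x - δ) * Φ A) = 0 := by
  obtain ⟨S', hS', hxS'⟩ : ∃ S', insert x S' = S ∧ x ∉ S' := ⟨S.erase x, insert_erase hx, notMem_erase x S⟩
  subst hS'
  unfold Ex
  rw [sum_powerset_insert hxS', ← sum_add_distrib]
  refine sum_eq_zero fun A hA => ?_
  have hAS : A ⊆ S' := mem_powerset.1 hA
  have hxA : x ∉ A := fun h => hxS' (hAS h)
  have e1 : insert x S' \ A = insert x (S' \ A) := insert_sdiff_of_notMem _ hxA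
  have e2 : insert x S' \ insert x A = S' \ A := by
    rw [insert_sdiff_insert, sdiff_insert_of_notMem hxS']
  have hx2 : x ∉ S' \ A := fun h => hxS' (mem_sdiff.1 h).1
  unfold wt
  dsimp only
  rw [e1, e2, card_insert_of_notMem hxA, card_insert_of_notMem hx2, hΦ]
  have i1 : ind A x = 0 := by unfold ind; rw [if_neg hxA]
  have i2 : ind (insert x A) x = 1 := by unfold ind; rw [if_pos (mem_insert_self x A)]
  rw [i1, i2]
  ring

/-- `1_A - δ 1_S`. -/
def ff (δ : ℝ) (S A : Finset G) (x : G) : ℝ := if x ∈ S then ind A x - δ else 0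

omit [AddCommGroup G] [Fintype G] in
lemma ff_eq (δ : ℝ) (S A : Finset G) (hA : A ⊆ S) (x : G) : ind A x - δ * ind S x = ff δ S A x := by
  unfold ff ind
  by_cases h : x ∈ S
  · simp [h]
  · have : x ∉ A := fun h' => h (hA h')
    simp [h, this]

omit [AddCommGroup G] [Fintype G] in
lemma ff_insert (δ : ℝ) (S A : Finset G) (a b : G) (h : b ≠ a) : ff δ S (insert a A) b = ff δ S A b := by
  unfold ff ind
  have : b ∈ insert a A ↔ b ∈ A := by rw [mem_insert]; simp [h]
  simp only [this]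

omit [AddCommGroup G] [Fintype G] in
lemma ff_sq_le {δ : ℝ} (h0 : 0 ≤ δ) (h1 : δ ≤ 1) (S A : Finset G) (x : G) : ff δ S A x ^ 2 ≤ ind A x + δ := by
  unfold ff ind
  split_ifs <;> nlinarith

omit [AddCommGroup G] [Fintype G] in
lemma ff_sq_le_one {δ : ℝ} (h0 : 0 ≤ δ) (h1 : δ ≤ 1) (S A : Finset G) (x : G) : ff δ S A x ^ 2 ≤ 1 := by
  unfold ff ind
  split_ifs <;> nlinarith

omit [AddCommGroup G] [Fintype G] in
/-- The expectation of a product in which one point occurs only once is zero. -/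
lemma Ex_single (δ : ℝ) (S : Finset G) (a b c d : G) (hb : b ≠ a) (hc : c ≠ a) (hd : d ≠ a) :
    Ex δ S (fun A => ff δ S A a * (ff δ S A b * ff δ S A c * ff δ S A d)) = 0 := by
  by_cases ha : a ∈ S
  · rw [← Ex_indep δ S a ha (fun A => ff δ S A b * ff δ S A c * ff δ S A d)
      (fun A => by rw [ff_insert _ _ _ _ _ hb, ff_insert _ _ _ _ _ hc, ff_insert _ _ _ _ _ hd])]
    refine Ex_congr _ _ _ _ fun A _ => ?_
    have : ff δ S A a = ind A a - δ := by unfold ff; rw [if_pos ha]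
    rw [this]
  · unfold Ex
    refine sum_eq_zero fun A _ => ?_
    have : ff δ S A a = 0 := by unfold ff; rw [if_neg ha]
    dsimp only
    rw [this]; ring

omit [AddCommGroup G] [Fintype G] in
lemma Ex_ind (δ : ℝ) (S : Finset G) (a : G) (ha : a ∈ S) : Ex δ S (fun A => ind A a) = δ := by
  have h := Ex_indep δ S a ha (fun _ => 1) (fun _ => rfl)
  have e : Ex δ S (fun A => (ind A a - δ) * 1) = Ex δ S (fun A => ind A a) + (-δ) * Ex δ S (fun _ => 1) := by
    rw [← Ex_mul, ← Ex_add]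
    exact Ex_congr _ _ _ _ fun A _ => by ring
  rw [e, Ex_one] at h
  linarith

omit [AddCommGroup G] [Fintype G] in
lemma Ex_ind_two (δ : ℝ) (S : Finset G) (a b : G) (ha : a ∈ S) (hb : b ∈ S) (hab : b ≠ a) :
    Ex δ S (fun A => ind A a * ind A b) = δ ^ 2 := by
  have h := Ex_indep δ S a ha (fun A => ind A b) (fun A => by
    unfold ind
    have : b ∈ insert a A ↔ b ∈ A := by rw [mem_insert]; simp [hab]
    simp only [this])
  have e : Ex δ S (fun A => (ind A a - δ) * ind A b) =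
      Ex δ S (fun A => ind A a * ind A b) + (-δ) * Ex δ S (fun A => ind A b) := by
    rw [← Ex_mul, ← Ex_add]
    exact Ex_congr _ _ _ _ fun A _ => by ring
  rw [e, Ex_ind δ S b hb] at h
  nlinarith

omit [AddCommGroup G] [Fintype G] in
lemma Ex_pair {δ : ℝ} (h0 : 0 ≤ δ) (h1 : δ ≤ 1) (S : Finset G) (a b : G) (ha : a ∈ S) (hb : b ∈ S) (hab : b ≠ a) :
    Ex δ S (fun A => ff δ S A a ^ 2 * ff δ S A b ^ 2) ≤ 4 * δ ^ 2 := by
  have h2 : Ex δ S (fun A => (ind A a + δ) * (ind A b + δ)) = 4 * δ ^ 2 := by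
    have e : Ex δ S (fun A => (ind A a + δ) * (ind A b + δ)) =
        Ex δ S (fun A => ind A a * ind A b) + δ * Ex δ S (fun A => ind A a) +
          δ * Ex δ S (fun A => ind A b) + δ ^ 2 * Ex δ S (fun _ => 1) := by
      rw [← Ex_mul, ← Ex_mul, ← Ex_mul, ← Ex_add, ← Ex_add, ← Ex_add]
      exact Ex_congr _ _ _ _ fun A _ => by ring
    rw [e, Ex_ind_two δ S a b ha hb hab, Ex_ind δ S a ha, Ex_ind δ S b hb, Ex_one]
    ring
  rw [← h2]
  refine Ex_mono h0 h1 _ _ _ fun A _ => ?_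
  have hi : 0 ≤ ind A a := ind_nonneg A a
  exact mul_le_mul (ff_sq_le h0 h1 S A a) (ff_sq_le h0 h1 S A b) (sq_nonneg _) (by linarith)

omit [AddCommGroup G] [Fintype G] in
lemma Ex_four {δ : ℝ} (h0 : 0 ≤ δ) (h1 : δ ≤ 1) (S : Finset G) (a : G) (ha : a ∈ S) :
    Ex δ S (fun A => ff δ S A a ^ 2 * ff δ S A a ^ 2) ≤ 2 * δ := by
  have h2 : Ex δ S (fun A => ind A a + δ) = 2 * δ := by
    have e : Ex δ S (fun A => ind A a + δ) = Ex δ S (fun A => ind A a) + δ * Ex δ S (fun _ => 1) := by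
      rw [← Ex_mul, ← Ex_add]
      exact Ex_congr _ _ _ _ fun A _ => by ring
    rw [e, Ex_ind δ S a ha, Ex_one]
    ring
  rw [← h2]
  refine Ex_mono h0 h1 _ _ _ fun A _ => ?_
  have h3 := ff_sq_le h0 h1 S A a
  have h4 := ff_sq_le_one h0 h1 S A a
  have h5 := sq_nonneg (ff δ S A a)
  nlinarith

/-- The bound for a quadruple. -/
def Bd (δ : ℝ) (S : Finset G) (a b c : G) : ℝ :=
  4 * δ ^ 2 * (ind S a * ind S b * (if c = a then 1 else 0)) +
  4 * δ ^ 2 * (ind S a * ind S b * (if c = b then 1 else 0)) +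
  4 * δ ^ 2 * (ind S a * ind S c * (if b = a then 1 else 0)) +
  2 * δ * (ind S a * (if b = a then 1 else 0) * (if c = a then 1 else 0))

omit [AddCommGroup G] [Fintype G] in
lemma Bd_nonneg {δ : ℝ} (h0 : 0 ≤ δ) (S : Finset G) (a b c : G) : 0 ≤ Bd δ S a b c := by
  have ha := ind_nonneg S a
  have hb := ind_nonneg S b
  have hc := ind_nonneg S c
  unfold Bd
  split_ifs <;> positivity

omit [Fintype G] in
lemma quad_le {δ : ℝ} (h0 : 0 ≤ δ) (h1 : δ ≤ 1) (S : Finset G) (a b c : G) :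
    Ex δ S (fun A => ff δ S A a * ff δ S A b * ff δ S A c * ff δ S A (a + b - c - 0)) ≤ Bd δ S a b c := by
  rw [sub_zero]
  have hB := Bd_nonneg h0 S a b c
  have hzero : ∀ y : G, y ∉ S → ∀ A, ff δ S A y = 0 := fun y hy A => by unfold ff; rw [if_neg hy]
  by_cases ha : a ∈ S
  swap
  · have : Ex δ S (fun A => ff δ S A a * ff δ S A b * ff δ S A c * ff δ S A (a + b - c)) = 0 := by
      unfold Ex
      exact sum_eq_zero fun A _ => by dsimp only; rw [hzero a ha]; ring
    rw [this]; exact hB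
  by_cases hb : b ∈ S
  swap
  · have : Ex δ S (fun A => ff δ S A a * ff δ S A b * ff δ S A c * ff δ S A (a + b - c)) = 0 := by
      unfold Ex
      exact sum_eq_zero fun A _ => by dsimp only; rw [hzero b hb]; ring
    rw [this]; exact hB
  by_cases hc : c ∈ S
  swap
  · have : Ex δ S (fun A => ff δ S A a * ff δ S A b * ff δ S A c * ff δ S A (a + b - c)) = 0 := by
      unfold Ex
      exact sum_eq_zero fun A _ => by dsimp only; rw [hzero c hc]; ring
    rw [this]; exact hB
  have ia : ind S a = 1 := by unfold ind; rw [if_pos ha]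
  have ib : ind S b = 1 := by unfold ind; rw [if_pos hb]
  have ic : ind S c = 1 := by unfold ind; rw [if_pos hc]
  by_cases hca : c = a
  · subst hca
    have e : Ex δ S (fun A => ff δ S A c * ff δ S A b * ff δ S A c * ff δ S A (c + b - c)) =
        Ex δ S (fun A => ff δ S A c ^ 2 * ff δ S A b ^ 2) := by
      refine Ex_congr _ _ _ _ fun A _ => ?_
      rw [add_sub_cancel_left]; ring
    rw [e]
    by_cases hbc : b = c
    · subst hbc
      refine (Ex_four h0 h1 S b hb).trans ?_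
      unfold Bd
      simp only [ib, if_true]
      nlinarith [sq_nonneg δ]
    · refine (Ex_pair h0 h1 S c b hc hb hbc).trans ?_
      unfold Bd
      simp only [ib, ic, if_true, if_neg hbc, if_neg (Ne.symm hbc)]
      nlinarith [sq_nonneg δ]
  by_cases hcb : c = b
  · subst hcb
    have e : Ex δ S (fun A => ff δ S A a * ff δ S A c * ff δ S A c * ff δ S A (a + c - c)) =
        Ex δ S (fun A => ff δ S A a ^ 2 * ff δ S A c ^ 2) := by
      refine Ex_congr _ _ _ _ fun A _ => ?_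
      rw [add_sub_cancel_right]; ring
    rw [e]
    refine (Ex_pair h0 h1 S a c ha hc hca).trans ?_
    unfold Bd
    simp only [ia, ic, if_true, if_neg hca]
    nlinarith [sq_nonneg δ]
  by_cases hba : b = a
  · subst hba
    by_cases hd : b + b - c = c
    · have e : Ex δ S (fun A => ff δ S A b * ff δ S A b * ff δ S A c * ff δ S A (b + b - c)) =
          Ex δ S (fun A => ff δ S A b ^ 2 * ff δ S A c ^ 2) := by
        refine Ex_congr _ _ _ _ fun A _ => ?_
        rw [hd]; ring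
      rw [e]
      refine (Ex_pair h0 h1 S b c hb hc hcb).trans ?_
      unfold Bd
      simp only [ib, ic, if_true, if_neg hcb]
      nlinarith [sq_nonneg δ]
    · have e : Ex δ S (fun A => ff δ S A b * ff δ S A b * ff δ S A c * ff δ S A (b + b - c)) =
          Ex δ S (fun A => ff δ S A c * (ff δ S A b * ff δ S A b * ff δ S A (b + b - c))) :=
        Ex_congr _ _ _ _ fun A _ => by ring
      rw [e, Ex_single δ S c b b (b + b - c) (Ne.symm hcb) (Ne.symm hcb) hd]
      exact hB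
  · have hd : a + b - c ≠ a := by
      intro h
      apply hcb
      have h2 : a + b - c - a = 0 := by rw [h, sub_self]
      have h3 : a + b - c - a = b - c := by abel
      rw [h3] at h2
      exact (sub_eq_zero.1 h2).symm
    have e : Ex δ S (fun A => ff δ S A a * ff δ S A b * ff δ S A c * ff δ S A (a + b - c)) =
        Ex δ S (fun A => ff δ S A a * (ff δ S A b * ff δ S A c * ff δ S A (a + b - c))) :=
      Ex_congr _ _ _ _ fun A _ => by ring
    rw [e, Ex_single δ S a b c (a + b - c) hba hca hd]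
    exact hB

omit [AddCommGroup G] in
lemma sum_Bd (δ : ℝ) (S : Finset G) :
    ∑ a, ∑ b, ∑ c, Bd δ S a b c = 12 * δ ^ 2 * (S.card : ℝ) ^ 2 + 2 * δ * S.card := by
  have hs := sum_ind (G := G) S
  have e0 : ∑ a, ∑ b, ∑ c, Bd δ S a b c =
      4 * δ ^ 2 * (∑ a, ∑ b, ∑ c, ind S a * ind S b * (if c = a then (1 : ℝ) else 0)) +
      4 * δ ^ 2 * (∑ a, ∑ b, ∑ c, ind S a * ind S b * (if c = b then (1 : ℝ) else 0)) +
      4 * δ ^ 2 * (∑ a, ∑ b, ∑ c, ind S a * ind S c * (if b = a then (1 : ℝ) else 0)) +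
      2 * δ * (∑ a, ∑ b, ∑ c, ind S a * (if b = a then (1 : ℝ) else 0) * (if c = a then (1 : ℝ) else 0)) := by
    simp only [Bd, sum_add_distrib, mul_sum]
  have e1 : ∑ a, ∑ b, ∑ c, ind S a * ind S b * (if c = a then (1 : ℝ) else 0) = (S.card : ℝ) ^ 2 := by
    simp only [← mul_sum, sum_ite_eq', mem_univ, if_true, mul_one, ← sum_mul, hs]
    ring
  have e2 : ∑ a, ∑ b, ∑ c, ind S a * ind S b * (if c = b then (1 : ℝ) else 0) = (S.card : ℝ) ^ 2 := by
    simp only [← mul_sum, sum_ite_eq', mem_univ, if_true, mul_one, ← sum_mul, hs]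
    ring
  have e3 : ∑ a, ∑ b, ∑ c, ind S a * ind S c * (if b = a then (1 : ℝ) else 0) = (S.card : ℝ) ^ 2 := by
    have h : ∀ a : G, ∑ b, ∑ c, ind S a * ind S c * (if b = a then (1 : ℝ) else 0) = ind S a * S.card := by
      intro a
      rw [sum_comm]
      have h2 : ∀ c : G, ∑ b, ind S a * ind S c * (if b = a then (1 : ℝ) else 0) = ind S a * ind S c := by
        intro c
        rw [← mul_sum, sum_ite_eq', if_pos (mem_univ _), mul_one]
      rw [sum_congr rfl fun c _ => h2 c, ← mul_sum, hs]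
    rw [sum_congr rfl fun a _ => h a, ← sum_mul, hs]
    ring
  have e4 : ∑ a, ∑ b, ∑ c, ind S a * (if b = a then (1 : ℝ) else 0) * (if c = a then (1 : ℝ) else 0) =
      (S.card : ℝ) := by
    simp only [← mul_sum, sum_ite_eq', mem_univ, if_true, mul_one, hs]
  rw [e0, e1, e2, e3, e4]
  ring

/-- **The expected energy.** -/
theorem Ex_En_le {δ : ℝ} (h0 : 0 ≤ δ) (h1 : δ ≤ 1) (S : Finset G) :
    Ex δ S (fun A => En (fun x => ind A x - δ * ind S x)) ≤ 12 * δ ^ 2 * (S.card : ℝ) ^ 2 + 2 * δ * S.card := by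
  rw [← sum_Bd]
  have e : Ex δ S (fun A => En (fun x => ind A x - δ * ind S x)) =
      ∑ a, ∑ b, ∑ c, Ex δ S (fun A => ff δ S A a * ff δ S A b * ff δ S A c * ff δ S A (a + b - c - 0)) := by
    have e2 : Ex δ S (fun A => En (fun x => ind A x - δ * ind S x)) =
        Ex δ S (fun A => ∑ a, ∑ b, ∑ c, ff δ S A a * ff δ S A b * ff δ S A c * ff δ S A (a + b - c - 0)) := by
      refine Ex_congr _ _ _ _ fun A hA => ?_
      have h3 : (fun x => ind A x - δ * ind S x) = ff δ S A := funext fun x => ff_eq δ S A (mem_powerset.1 hA) x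
      rw [h3, ← rr_zero]
      rfl
    rw [e2, Ex_sum]
    refine sum_congr rfl fun a _ => ?_
    rw [Ex_sum]
    refine sum_congr rfl fun b _ => ?_
    rw [Ex_sum]
  rw [e]
  exact sum_le_sum fun a _ => sum_le_sum fun b _ => sum_le_sum fun c _ => quad_le h0 h1 S a b c

omit [AddCommGroup G] [Fintype G] in
/-- The inequality of Markov. -/
lemma markov {δ : ℝ} (h0 : 0 ≤ δ) (h1 : δ ≤ 1) (S : Finset G) (X : Finset G → ℝ) (hX : ∀ A, 0 ≤ X A) (T : ℝ)
    (hT : 0 < T) (P : Finset G → Prop) [DecidablePred P] (hP : ∀ A ⊆ S, P A → T ≤ X A) :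
    ∑ A ∈ S.powerset with P A, wt δ S A ≤ Ex δ S X / T := by
  rw [le_div_iff₀ hT, sum_mul]
  calc ∑ A ∈ S.powerset with P A, wt δ S A * T ≤ ∑ A ∈ S.powerset with P A, wt δ S A * X A := by
        refine sum_le_sum fun A hA => ?_
        rw [mem_filter, mem_powerset] at hA
        exact mul_le_mul_of_nonneg_left (hP A hA.1 hA.2) (wt_nonneg h0 h1 S A)
    _ ≤ Ex δ S X := by
        unfold Ex
        exact sum_le_sum_of_subset_of_nonneg (filter_subset _ _)
          fun A _ _ => mul_nonneg (wt_nonneg h0 h1 S A) (hX A)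

omit [AddCommGroup G] [Fintype G] in
lemma Ex_card {δ : ℝ} (S : Finset G) : Ex δ S (fun A => (A.card : ℝ)) = δ * S.card := by
  have e : Ex δ S (fun A => (A.card : ℝ)) = Ex δ S (fun A => ∑ x ∈ S, ind A x) := by
    refine Ex_congr _ _ _ _ fun A hA => ?_
    unfold ind
    rw [sum_ite_mem, inter_eq_right.2 (mem_powerset.1 hA), sum_const, nsmul_eq_mul, mul_one]
  rw [e, Ex_sum, sum_congr rfl fun x hx => Ex_ind δ S x hx, sum_const, nsmul_eq_mul]
  ring

end Run7.h671.RS
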