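import Pool.Agent.Run7.h671.RS.Fin1
import Pool.Agent.Run7.h671.RS.PopE

/-!
# Random subsets of sets that contain a translate of a large proper coset progression
-/

set_option autoImplicit false

namespace Run7.h671.RS

open Finset

variable {N : ℕ} [NeZero N]

/-- Random subsets of a set `S` that contains `t + P` for a proper coset progression `P`. -/
theorem sub_random (D : ℝ) (hD : 0 < D) {d : ℕ} (S : Finset (ZMod N)) (t : ZMod N) (H : AddSubgroup (ZMod N))
    (a : Fin d → ZMod N) (L : Fin d → ℕ) (hprop : Proper H a L) (hsub : ∀ x ∈ cosetProg H a L, t + x ∈ S)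
    (δ : ℝ) (hδ : 0 < δ) (hδ1 : δ ≤ 1) (C : ℝ) (hC : 370 * (36 + 7 * (9 * D)) + 740 * (2 * (D + 1)) + 26 ≤ C)
    (Bad : Finset (ZMod N) → Prop) [DecidablePred Bad]
    (hBad : ∀ A ⊆ S, Bad A → A.Nonempty ∧ (A.card : ℝ) / (N : ℝ) ≤ 1 / 2 ∧ (d : ℝ) ≤ D * ell A ∧
      Real.log ((S.card : ℝ) / ((cosetProg H a L).ncard : ℝ)) ≤ D * ell A ∧ ¬ Q1For C A) :
    ∑ A ∈ S.powerset with Bad A, wt δ S A ≤ (N : ℝ) ^ (-(1 / 8 : ℝ)) := by
  classical
  obtain ⟨S₁, hS₁d⟩ : ∃ S₁ : Finset (ZMod N), S₁ = univ.filter fun y => y - t ∈ cosetProg H a L := ⟨_, rfl⟩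
  have hS₁ : IsTranslate S₁ t H a L := by
    intro y
    rw [hS₁d, mem_filter]
    simp
  have hS₁S : S₁ ⊆ S := by
    intro y hy
    have := hsub _ ((hS₁ y).1 hy)
    have e : t + (y - t) = y := by ring
    rwa [e] at this
  have hcard := card_translate S₁ t H a L hS₁
  rw [← hcard] at hBad
  have hS₁ne : S₁.Nonempty := ⟨t, (hS₁ t).2 ⟨0, H.zero_mem, 0, fun i => by simp, by simp⟩⟩
  have hSne : S.Nonempty := hS₁ne.mono hS₁S
  have hS0 : (0 : ℝ) < S.card := by exact_mod_cast hSne.card_pos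
  have hS10 : (0 : ℝ) < S₁.card := by exact_mod_cast hS₁ne.card_pos
  have hle : (S₁.card : ℝ) ≤ S.card := by exact_mod_cast card_le_card hS₁S
  have hNpos : (0 : ℝ) < N := by exact_mod_cast NeZero.pos N
  have hq0 : 0 < (S₁.card : ℝ) / S.card := by positivity
  have hq1 : (S₁.card : ℝ) / S.card ≤ 1 := by
    rw [div_le_one hS0]
    exact hle
  have hρ1 : (1 / 343 : ℝ) ^ d * ((S₁.card : ℝ) / S.card) ^ 3 ≤ 1 := by
    have g1 : (1 / 343 : ℝ) ^ d ≤ 1 := pow_le_one₀ (by norm_num) (by norm_num)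
    have g2 : ((S₁.card : ℝ) / S.card) ^ 3 ≤ 1 := pow_le_one₀ hq0.le hq1
    calc (1 / 343 : ℝ) ^ d * ((S₁.card : ℝ) / S.card) ^ 3 ≤ 1 * 1 := by gcongr
      _ = 1 := by norm_num
  refine prob_bound S hSne δ hδ hδ1 ((1 / 343) ^ d * ((S₁.card : ℝ) / S.card) ^ 3) (by positivity) hρ1
    (9 * D) Bad ?_ ?_ ?_
  · intro A hAS hA
    obtain ⟨b1, b2, b3, b4, b5⟩ := hBad A hAS hA
    refine ⟨b1, b2, ?_⟩
    have e : (1 : ℝ) / ((1 / 343) ^ d * ((S₁.card : ℝ) / S.card) ^ 3) =
        343 ^ d * ((S.card : ℝ) / S₁.card) ^ 3 := by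
      rw [one_div, mul_inv, ← inv_pow, ← inv_pow, one_div, inv_inv, inv_div]
    rw [e, Real.log_mul (by positivity) (by positivity), Real.log_pow, Real.log_pow]
    have h1 := log_343
    have h2 : 0 ≤ Real.log 343 := Real.log_nonneg (by norm_num)
    have hd0 : (0 : ℝ) ≤ d := Nat.cast_nonneg d
    have h3 : (d : ℝ) * Real.log 343 ≤ D * ell A * 6 := by
      calc (d : ℝ) * Real.log 343 ≤ d * 6 := by gcongr
        _ ≤ (D * ell A) * 6 := by gcongr
    push_cast
    linarith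
  · intro A hAS hA
    obtain ⟨b1, b2, b3, b4, b5⟩ := hBad A hAS hA
    by_contra hcon
    push Not at hcon
    apply b5
    obtain ⟨h5, h6⟩ := ell_facts (NeZero.pos N) A b1 b2
    have hlog2 := Real.log_two_gt_d9
    have hAc : (0 : ℝ) < A.card := by exact_mod_cast b1.card_pos
    have hAS' : (A.card : ℝ) ≤ S.card := by exact_mod_cast card_le_card hAS
    have hlS : Real.log (N / S.card) ≤ Real.log ((N : ℝ) / (A.card : ℝ)) := by
      apply Real.log_le_log (by positivity)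
      exact div_le_div_of_nonneg_left hNpos.le hAc hAS'
    have hlS1 : Real.log ((N : ℝ) / S₁.card) = Real.log (N / S.card) + Real.log (S.card / S₁.card) := by
      rw [← Real.log_mul (by positivity) (by positivity)]
      congr 1
      field_simp
    refine prog_concl (2 * (D + 1)) (by positivity) S₁ t H a L hprop hS₁ A b1 b2 ?_ ?_ (fun x hx => ?_) C
      (by linarith)
    · unfold ell at b3
      obtain ⟨l, hl⟩ : ∃ l : ℝ, l = Real.log ((N : ℝ) / (A.card : ℝ)) := ⟨_, rfl⟩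
      rw [← hl] at h5 b3 ⊢
      have : 0 ≤ D * l := by
        have : 0 ≤ l := by linarith
        positivity
      linarith
    · unfold ell at b4
      obtain ⟨l, hl⟩ : ∃ l : ℝ, l = Real.log ((N : ℝ) / (A.card : ℝ)) := ⟨_, rfl⟩
      rw [← hl] at h5 h6 b4 hlS ⊢
      have hl0 : 0 ≤ l := by linarith
      have hDl : 0 ≤ (D + 1) * l := by positivity
      rw [hlS1]
      calc Real.log (N / S.card) + Real.log (S.card / S₁.card) ≤ l + D * l := by linarith
        _ = (D + 1) * l := by ring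
        _ ≤ 2 * (D + 1) * l * Real.log (2 + l) := by nlinarith
    · refine hcon x (le_trans (le_of_eq ?_) ((prog_popular S₁ t H a L hprop hS₁ x hx).trans (rr_mono hS₁S x)))
      field_simp
  · intro A hAS hA
    obtain ⟨b1, b2, b3, b4, b5⟩ := hBad A hAS hA
    by_contra hcon
    push Not at hcon
    apply b5
    unfold ell at hcon
    exact of_sparse (36 + 7 * (9 * D)) (by positivity) (NeZero.pos N) A b1 b2 hcon C (by linarith)

end Run7.h671.RS
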